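import Pool.Agent.H30.EE.TargetsU
import Pool.Agent.H27.LV.Curve
import Pool.Agent.H27.LV.Gen

/-!
# Transport of the height `D_2`
-/

set_option autoImplicit false

namespace Pool.Agent.H13.EE

open MvPolynomial SC Pool.Agent.H27.LV Pool.Agent.H17.VG Pool.Agent.H30.EE

section minors

variable {K : Type} [Field K]

theorem mnr_mul {m : ℕ} {ι κ : Type} [Fintype ι] (u : Fin m → ι → K) (S : ι → κ → K)
    (J : Fin m → κ) :
    mnr (fun a j => ∑ N, u a N * S N j) J =
      ∑ J2 : Fin m → ι, (∏ b, S (J2 b) (J b)) * mnr u J2 := by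
  classical
  have h1 : mnr (fun a j => ∑ N, u a N * S N j) J =
      (Matrix.detRowAlternating (n := Fin m) (R := K)).toMultilinearMap
        (fun b : Fin m => ∑ N, (S N (J b) • fun a : Fin m => u a N)) := by
    unfold mnr
    rw [← Matrix.det_transpose]
    change Matrix.det _ = Matrix.det _
    congr 1
    ext b a
    simp only [Matrix.transpose_apply, Matrix.of_apply, Finset.sum_apply, Pi.smul_apply,
      smul_eq_mul]
    exact Finset.sum_congr rfl fun N _ => mul_comm _ _
  rw [h1, MultilinearMap.map_sum]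
  refine Finset.sum_congr rfl fun J2 _ => ?_
  rw [MultilinearMap.map_smul_univ, smul_eq_mul]
  congr 1
  unfold mnr
  rw [← Matrix.det_transpose]
  rfl

end minors

section orders

variable {k K : Type} [Field k] [Field K] [Algebra k K] (v : DV k K)

lemma ge_prod {ι : Type*} (s : Finset ι) (f : ι → K) (t : ι → ℤ) (h : ∀ i ∈ s, ge v (t i) (f i)) :
    ge v (∑ i ∈ s, t i) (∏ i ∈ s, f i) := by
  classical
  induction s using Finset.induction_on with
  | empty => exact ge_one v
  | insert a s ha ih =>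
    rw [Finset.sum_insert ha, Finset.prod_insert ha]
    exact (h a (Finset.mem_insert_self _ _)).mul
      (ih fun i hi => h i (Finset.mem_insert_of_mem hi))

/-- all coefficients vanish to order at least `t` -/
def gp {m : ℕ} (t : ℤ) (P : MvPolynomial (Fin m) K) : Prop := ∀ s, ge v t (coeff s P)

variable {v}

lemma gp.mul {m : ℕ} {s t : ℤ} {P Q : MvPolynomial (Fin m) K} (hP : gp v s P) (hQ : gp v t Q) :
    gp v (s + t) (P * Q) := by
  classical
  intro d
  rw [coeff_mul]
  exact ge_sum v _ _ _ fun i _ => (hP _).mul (hQ _)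

lemma gp_one {m : ℕ} : gp v 0 (1 : MvPolynomial (Fin m) K) := by
  classical
  intro d
  rw [coeff_one]
  split_ifs
  · exact ge_one v
  · exact ge_zero v 0

lemma gp.pow {m : ℕ} {t : ℤ} {P : MvPolynomial (Fin m) K} (hP : gp v t P) (n : ℕ) :
    gp v (n * t) (P ^ n) := by
  induction n with
  | zero => simpa using gp_one
  | succ n ih =>
    rw [pow_succ]
    have := ih.mul hP
    have h : ((n + 1 : ℕ) : ℤ) * t = n * t + t := by
      push_cast
      ring
    rw [h]
    exact this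

lemma gp_prod {m : ℕ} {ι : Type*} (s : Finset ι) (f : ι → MvPolynomial (Fin m) K) (t : ι → ℤ)
    (h : ∀ i ∈ s, gp v (t i) (f i)) : gp v (∑ i ∈ s, t i) (∏ i ∈ s, f i) := by
  classical
  induction s using Finset.induction_on with
  | empty => exact gp_one
  | insert a s ha ih =>
    rw [Finset.sum_insert ha, Finset.prod_insert ha]
    exact (h a (Finset.mem_insert_self _ _)).mul
      (ih fun i hi => h i (Finset.mem_insert_of_mem hi))

end orders

section subst

variable {k K : Type} [Field k] [Field K] [Algebra k K] {n r : ℕ}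

/-- substitution of linear forms in `r + 1` variables -/
noncomputable def sg (c : Fin (r + 1) → Fin (n + 1) → K) :
    MvPolynomial (Fin (n + 1)) K →ₐ[K] MvPolynomial (Fin (r + 1)) K :=
  aeval fun j => lin (fun l => c l j)

lemma sg_mono (c : Fin (r + 1) → Fin (n + 1) → K) (M : Fin (n + 1) → ℕ) :
    sg c (mono K M) = ∏ j, lin (fun l => c l j) ^ M j := by
  unfold sg mono fs
  rw [aeval_monomial, map_one, one_mul, Finsupp.prod_fintype _ _ (fun i => pow_zero _)]
  rfl

lemma lin_homog (x : Fin (r + 1) → K) : (lin x).IsHomogeneous 1 := by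
  unfold lin
  refine IsHomogeneous.sum _ _ _ fun j _ => ?_
  exact (isHomogeneous_C_mul_X (x j) j)

lemma sg_mono_homog (c : Fin (r + 1) → Fin (n + 1) → K) (M : Mon (n + 1) 2) :
    (sg c (mono K M.1)).IsHomogeneous 2 := by
  rw [sg_mono]
  have h := IsHomogeneous.prod (Finset.univ : Finset (Fin (n + 1)))
    (fun j => lin (fun l => c l j) ^ M.1 j) (fun j => 1 * M.1 j)
    (fun j _ => (lin_homog _).pow _)
  have h2 : ∑ j : Fin (n + 1), 1 * M.1 j = 2 := by
    simp only [one_mul]
    exact M.2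
  rwa [h2] at h

lemma resC_sg (w : Fin (r + 1) → Fin (r + 1) → K) (c : Fin (r + 1) → Fin (n + 1) → K)
    (G : MvPolynomial (Fin (n + 1)) K) :
    resC (fun i j => ∑ l, w i l * c l j) G = resC w (sg c G) := by
  unfold resC sg
  rw [← AlgHom.comp_apply]
  congr 1
  apply MvPolynomial.algHom_ext
  intro j
  rw [AlgHom.comp_apply, aeval_X, aeval_X]
  unfold lin
  rw [map_sum]
  have h1 : ∀ l : Fin (r + 1),
      (aeval fun i => ∑ j, Polynomial.C (w j i) * (Polynomial.X : Polynomial K) ^ (j : ℕ))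
        (C (c l j) * X l : MvPolynomial (Fin (r + 1)) K) =
      ∑ i, Polynomial.C (w i l * c l j) * (Polynomial.X : Polynomial K) ^ (i : ℕ) := by
    intro l
    rw [map_mul, aeval_X, aeval_C, Finset.mul_sum]
    refine Finset.sum_congr rfl fun i _ => ?_
    rw [Polynomial.C_mul]
    change Polynomial.C (c l j) * _ = _
    ring
  rw [Finset.sum_congr rfl fun l _ => h1 l, Finset.sum_comm]
  refine Finset.sum_congr rfl fun i _ => ?_
  rw [map_sum, Finset.sum_mul]

/-- the matrix of the substitution in degree two -/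
noncomputable def SM (c : Fin (r + 1) → Fin (n + 1) → K) (N : Mon (r + 1) 2) (M : Mon (n + 1) 2) :
    K := coeff (fs N.1) (sg c (mono K M.1))

lemma RM_sg (w : Fin (r + 1) → Fin (r + 1) → K) (c : Fin (r + 1) → Fin (n + 1) → K) :
    RM 2 (fun i j => ∑ l, w i l * c l j) = fun a M => ∑ N, RM 2 w a N * SM c N M := by
  funext a M
  unfold RM
  rw [resC_sg]
  have h1 : sg c (mono K M.1) = ∑ N : Mon (r + 1) 2, C (SM c N M) * mono K N.1 :=
    (frm_coeff (sg_mono_homog c M)).symm
  rw [h1]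
  have h2 : resC w (∑ N : Mon (r + 1) 2, C (SM c N M) * mono K N.1) =
      ∑ N : Mon (r + 1) 2, Polynomial.C (SM c N M) * resC w (mono K N.1) := by
    unfold resC
    rw [map_sum]
    refine Finset.sum_congr rfl fun N _ => ?_
    rw [map_mul, aeval_C]
    rfl
  rw [h2, Polynomial.finsetSum_coeff]
  refine Finset.sum_congr rfl fun N _ => ?_
  rw [Polynomial.coeff_C_mul]
  ring

lemma ge_SM {v : DV k K} (c : Fin (r + 1) → Fin (n + 1) → K) {t : ℤ}
    (hc : ∀ l j, ge v t (c l j)) (N : Mon (r + 1) 2) (M : Mon (n + 1) 2) :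
    ge v (2 * t) (SM c N M) := by
  classical
  have h1 : ∀ j, gp v t (lin (fun l => c l j)) := by
    intro j d
    unfold lin
    rw [coeff_sum]
    refine ge_sum v _ _ _ fun l _ => ?_
    rw [coeff_C_mul, coeff_X]
    split_ifs
    · rw [mul_one]
      exact hc l j
    · rw [mul_zero]
      exact ge_zero v t
  have h2 := gp_prod (v := v) (Finset.univ : Finset (Fin (n + 1)))
    (fun j => lin (fun l => c l j) ^ M.1 j) (fun j => (M.1 j : ℤ) * t) (fun j _ => (h1 j).pow _)
  have h3 : ∑ j : Fin (n + 1), (M.1 j : ℤ) * t = 2 * t := by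
    rw [← Finset.sum_mul]
    have h4 : ((∑ j : Fin (n + 1), M.1 j : ℕ) : ℤ) = 2 := by
      rw [M.2]
      rfl
    push_cast at h4
    rw [h4]
  rw [h3, ← sg_mono] at h2
  exact h2 _

end subst

theorem pf_D2T (hMO : T_MO) (hHG : T_HG) (hCBM : T_CBM) (hQDM : T_QDM) (_hDAI : T_DAI) :
    T_D2T := by
  classical
  intro k K _ _ _ _ _ _ htr n r c ρ w z hc hw hρ
  -- independence
  have hdet : (Matrix.of w : Matrix (Fin (r + 1)) (Fin (r + 1)) K).det ≠ 0 := by
    have h1 : IsUnit (Matrix.of w : Matrix (Fin (r + 1)) (Fin (r + 1)) K) :=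
      Matrix.linearIndependent_rows_iff_isUnit.1 hw
    exact ((Matrix.isUnit_iff_isUnit_det _).1 h1).ne_zero
  have hwc : LinearIndependent K (fun i j => ∑ l, w i l * c l j) := by
    rw [(hCBM K (r + 1) (Fin (n + 1)) _).1]
    have h1 := (hCBM K (r + 1) (Fin (n + 1)) c).2 (Matrix.of w)
    have h2 : mnr (fun i j => ∑ l, w i l * c l j) =
        (Matrix.of w : Matrix (Fin (r + 1)) (Fin (r + 1)) K).det • mnr c := h1
    rw [h2]
    exact smul_ne_zero hdet ((hCBM K (r + 1) (Fin (n + 1)) c).1.1 hc)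
  refine ⟨hwc, ?_⟩
  -- the two families of minors
  have hP : mnr (RM 2 w) ≠ 0 :=
    (hCBM K (r * 2 + 1) (Mon (r + 1) 2) _).1.1 (hQDM K r r 2 w hw).2.2.2
  have hQ : mnr (RM 2 (fun i j => ∑ l, w i l * c l j)) ≠ 0 :=
    (hCBM K (r * 2 + 1) (Mon (n + 1) 2) _).1.1 (hQDM K r n 2 _ hwc).2.2.2
  set P₀ : Option (Fin (r + 1) × Fin (n + 1)) → K := fun o => o.elim 1 fun p => c p.1 p.2
    with hP₀
  have hP₀0 : P₀ ≠ 0 := fun h => one_ne_zero (congrFun h none)
  have hloc : ∀ v : DV k K, mo v (mnr (RM 2 w)) + ((r * 2 + 1 : ℕ) : ℤ) * (2 * mo v P₀) ≤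
      mo v (mnr (RM 2 (fun i j => ∑ l, w i l * c l j))) := by
    intro v
    refine ((hMO k K v _ (mnr (RM 2 (fun i j => ∑ l, w i l * c l j)))).2 hQ).2.2.1 _ fun J => ?_
    rw [RM_sg, mnr_mul]
    refine ge_sum v _ _ _ fun J2 _ => ?_
    have h1 := ((hMO k K v _ (mnr (RM 2 w))).2 hP).1 J2
    have h2 : ∀ l j, ge v (mo v P₀) (c l j) := fun l j =>
      ((hMO k K v _ P₀).2 hP₀0).1 (some (l, j))
    have h3 := ge_prod v (Finset.univ : Finset (Fin (r * 2 + 1)))
      (fun b => SM c (J2 b) (J b)) (fun _ => 2 * mo v P₀) (fun b _ => ge_SM c h2 _ _)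
    have h4 := h3.mul h1
    refine h4.mono (le_of_eq ?_)
    rw [Finset.sum_const, Finset.card_univ, Fintype.card_fin, nsmul_eq_mul]
    ring
  -- sum over the places
  have hfP := (hHG k K htr _ (mnr (RM 2 w))).1
  have hfQ := (hHG k K htr _ (mnr (RM 2 (fun i j => ∑ l, w i l * c l j)))).1
  have hf0 := (hHG k K htr _ P₀).1
  set F : Finset (DV k K) := hfP.toFinset ∪ hfQ.toFinset ∪ hf0.toFinset with hF
  have e1 : ∑ᶠ v : DV k K, mo v (mnr (RM 2 w)) = ∑ v ∈ F, mo v (mnr (RM 2 w)) := by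
    refine finsum_eq_sum_of_support_subset _ fun v hv => ?_
    rw [hF, Finset.coe_union, Finset.coe_union, Set.Finite.coe_toFinset]
    exact Or.inl (Or.inl hv)
  have e2 : ∑ᶠ v : DV k K, mo v (mnr (RM 2 (fun i j => ∑ l, w i l * c l j))) =
      ∑ v ∈ F, mo v (mnr (RM 2 (fun i j => ∑ l, w i l * c l j))) := by
    refine finsum_eq_sum_of_support_subset _ fun v hv => ?_
    rw [hF, Finset.coe_union, Finset.coe_union, Set.Finite.coe_toFinset, Set.Finite.coe_toFinset]
    exact Or.inl (Or.inr hv)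
  have e3 : ∑ᶠ v : DV k K, mo v P₀ = ∑ v ∈ F, mo v P₀ := by
    refine finsum_eq_sum_of_support_subset _ fun v hv => ?_
    rw [hF, Finset.coe_union, Set.Finite.coe_toFinset]
    exact Or.inr hv
  unfold hgt at hρ
  rw [e3] at hρ
  unfold Da hgt
  rw [e1, e2]
  have h5 : ∑ v ∈ F, (mo v (mnr (RM 2 w)) + ((r * 2 + 1 : ℕ) : ℤ) * (2 * mo v P₀)) ≤
      ∑ v ∈ F, mo v (mnr (RM 2 (fun i j => ∑ l, w i l * c l j))) :=
    Finset.sum_le_sum fun v _ => hloc v
  rw [Finset.sum_add_distrib, ← Finset.mul_sum, ← Finset.mul_sum] at h5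
  push_cast at h5
  nlinarith

end Pool.Agent.H13.EE
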