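import Mathlib

/-!
# The remainders of the diagonal Pade approximants of `e`

`del k = (-1)^k (Q_k e - P_k)` as a positive series, with its recurrence.
-/

set_option autoImplicit false

namespace Pool.Agent.H13.EE

open Nat (factorial)

open scoped Nat

/-- the terms of the series -/
noncomputable def tm (k j : ℕ) : ℝ := ((k + j)! : ℝ) / ((j ! : ℝ) * ((2 * k + j + 1)! : ℝ))

/-- the remainder of the `k`-th diagonal Pade approximant of `e`, up to sign -/
noncomputable def del (k : ℕ) : ℝ := ∑' j, tm k j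

lemma tm_pos (k j : ℕ) : 0 < tm k j := by unfold tm; positivity

lemma tm_le (k j : ℕ) : tm k j ≤ 1 / (j ! : ℝ) := by
  unfold tm
  rw [div_le_div_iff₀ (by positivity) (by positivity)]
  have h : ((k + j)! : ℝ) ≤ ((2 * k + j + 1)! : ℝ) := by
    exact_mod_cast Nat.factorial_le (by omega)
  have h2 : (0 : ℝ) < (j ! : ℝ) := by positivity
  nlinarith

lemma hasSum_inv_factorial : HasSum (fun n : ℕ => 1 / (n ! : ℝ)) (Real.exp 1) := by
  have h := NormedSpace.expSeries_div_hasSum_exp (𝔸 := ℝ) (1 : ℝ)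
  rw [← Real.exp_eq_exp_ℝ] at h
  simpa using h

lemma summable_tm (k : ℕ) : Summable (tm k) :=
  Summable.of_nonneg_of_le (fun j => (tm_pos k j).le) (tm_le k) hasSum_inv_factorial.summable

lemma del_pos (k : ℕ) : 0 < del k :=
  (summable_tm k).tsum_pos (fun j => (tm_pos k j).le) 0 (tm_pos k 0)

/-- the telescoping certificate -/
noncomputable def cer (k j : ℕ) : ℝ :=
  (-(j : ℝ) ^ 2 - (2 * k + 4) * j + k + 3) * (j * ((k + j)! : ℝ) / ((j ! : ℝ) *
    ((2 * k + j + 4)! : ℝ)))

lemma cer_succ (k j : ℕ) :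
    tm k j - (4 * k + 6) * tm (k + 1) j - tm (k + 2) j = cer k (j + 1) - cer k j := by
  unfold tm cer
  have e1 : (k + 1 + j)! = (k + j + 1) * (k + j)! := by
    rw [show k + 1 + j = (k + j) + 1 by ring, Nat.factorial_succ]
  have e2 : (k + 2 + j)! = (k + j + 2) * ((k + j + 1) * (k + j)!) := by
    rw [show k + 2 + j = (k + j + 1) + 1 by ring, Nat.factorial_succ, Nat.factorial_succ]
  have e3 : (2 * (k + 1) + j + 1)! = (2 * k + j + 3) * ((2 * k + j + 2) * (2 * k + j + 1)!) := by
    rw [show 2 * (k + 1) + j + 1 = (2 * k + j + 1 + 1) + 1 by ring, Nat.factorial_succ,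
      Nat.factorial_succ]
  have e4 : (2 * (k + 2) + j + 1)! = (2 * k + j + 5) * ((2 * k + j + 4) * ((2 * k + j + 3) *
      ((2 * k + j + 2) * (2 * k + j + 1)!))) := by
    rw [show 2 * (k + 2) + j + 1 = (2 * k + j + 1 + 1 + 1 + 1) + 1 by ring, Nat.factorial_succ,
      Nat.factorial_succ, Nat.factorial_succ, Nat.factorial_succ]
  have e5 : (2 * k + j + 4)! = (2 * k + j + 4) * ((2 * k + j + 3) *
      ((2 * k + j + 2) * (2 * k + j + 1)!)) := by
    rw [show 2 * k + j + 4 = (2 * k + j + 1 + 1 + 1) + 1 by ring, Nat.factorial_succ,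
      Nat.factorial_succ, Nat.factorial_succ]
  have e6 : (2 * k + (j + 1) + 4)! = (2 * k + j + 5) * ((2 * k + j + 4) * ((2 * k + j + 3) *
      ((2 * k + j + 2) * (2 * k + j + 1)!))) := by
    rw [show 2 * k + (j + 1) + 4 = (2 * k + j + 1 + 1 + 1 + 1) + 1 by ring, Nat.factorial_succ,
      Nat.factorial_succ, Nat.factorial_succ, Nat.factorial_succ]
  have e7 : (k + (j + 1))! = (k + j + 1) * (k + j)! := by
    rw [show k + (j + 1) = (k + j) + 1 by ring, Nat.factorial_succ]
  have e8 : (j + 1)! = (j + 1) * j ! := Nat.factorial_succ j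
  rw [e1, e2, e3, e4, e5, e6, e7, e8]
  push_cast
  have a1 : ((k + j)! : ℝ) ≠ 0 := by positivity
  have a2 : (j ! : ℝ) ≠ 0 := by positivity
  have a3 : ((2 * k + j + 1)! : ℝ) ≠ 0 := by positivity
  have b1 : (2 * (k : ℝ) + j + 2) ≠ 0 := by positivity
  have b2 : (2 * (k : ℝ) + j + 3) ≠ 0 := by positivity
  have b3 : (2 * (k : ℝ) + j + 4) ≠ 0 := by positivity
  have b4 : (2 * (k : ℝ) + j + 5) ≠ 0 := by positivity
  have b5 : ((j : ℝ) + 1) ≠ 0 := by positivity
  field_simp
  ring

lemma cer_bound (k j : ℕ) : |cer k j| ≤ 1 / (j ! : ℝ) := by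
  unfold cer
  rw [abs_mul]
  have h0 : (0 : ℝ) ≤ j * ((k + j)! : ℝ) / ((j ! : ℝ) * ((2 * k + j + 4)! : ℝ)) := by positivity
  rw [abs_of_nonneg h0]
  have hj : (0 : ℝ) ≤ j := Nat.cast_nonneg j
  have hk : (0 : ℝ) ≤ k := Nat.cast_nonneg k
  have h1 : |(-(j : ℝ) ^ 2 - (2 * k + 4) * j + k + 3)| ≤ ((k : ℝ) + j + 2) * (k + j + 3) := by
    rw [abs_le]
    constructor
    · nlinarith
    · nlinarith
  have h2 : ((k + j)! : ℝ) * (((k : ℝ) + j + 1) * (k + j + 2) * (k + j + 3) * (k + j + 4)) ≤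
      ((2 * k + j + 4)! : ℝ) := by
    have e : (k + j + 4)! = (k + j + 4) * ((k + j + 3) * ((k + j + 2) * ((k + j + 1) *
        (k + j)!))) := by
      rw [show k + j + 4 = (k + j + 1 + 1 + 1) + 1 by ring, Nat.factorial_succ,
        Nat.factorial_succ, Nat.factorial_succ, Nat.factorial_succ]
    have e2 : ((k + j + 4)! : ℝ) ≤ ((2 * k + j + 4)! : ℝ) := by
      exact_mod_cast Nat.factorial_le (by omega)
    rw [e] at e2
    push_cast at e2
    linarith
  calc |(-(j : ℝ) ^ 2 - (2 * k + 4) * j + k + 3)| *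
        (j * ((k + j)! : ℝ) / ((j ! : ℝ) * ((2 * k + j + 4)! : ℝ)))
      ≤ (((k : ℝ) + j + 2) * (k + j + 3)) *
        (j * ((k + j)! : ℝ) / ((j ! : ℝ) * ((2 * k + j + 4)! : ℝ))) :=
        mul_le_mul_of_nonneg_right h1 h0
    _ ≤ 1 / (j ! : ℝ) := by
        rw [mul_div_assoc', div_le_div_iff₀ (by positivity) (by positivity)]
        have a2 : (0 : ℝ) < (j ! : ℝ) := by positivity
        have a1 : (0 : ℝ) < ((k + j)! : ℝ) := by positivity
        have h3 : ((k : ℝ) + j + 2) * (k + j + 3) * (j * ((k + j)! : ℝ)) ≤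
            ((2 * k + j + 4)! : ℝ) := by
          refine le_trans ?_ h2
          have h4 : (j : ℝ) ≤ ((k : ℝ) + j + 1) * (k + j + 4) := by nlinarith
          have h5 : (0 : ℝ) ≤ ((k : ℝ) + j + 2) * (k + j + 3) * ((k + j)! : ℝ) := by positivity
          nlinarith [mul_le_mul_of_nonneg_left h4 h5]
        nlinarith

/-- the recurrence -/
lemma del_rec (k : ℕ) : del k = (4 * k + 6) * del (k + 1) + del (k + 2) := by
  have hs : Summable (fun j => tm k j - (4 * k + 6) * tm (k + 1) j - tm (k + 2) j) :=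
    ((summable_tm k).sub ((summable_tm (k + 1)).mul_left _)).sub (summable_tm (k + 2))
  have h1 : ∑' j, (tm k j - (4 * k + 6) * tm (k + 1) j - tm (k + 2) j) =
      del k - (4 * k + 6) * del (k + 1) - del (k + 2) := by
    rw [((summable_tm k).sub ((summable_tm (k + 1)).mul_left _)).tsum_sub (summable_tm (k + 2)),
      (summable_tm k).tsum_sub ((summable_tm (k + 1)).mul_left _), tsum_mul_left]
    rfl
  have h2 : Filter.Tendsto (fun n => ∑ j ∈ Finset.range n,
      (tm k j - (4 * k + 6) * tm (k + 1) j - tm (k + 2) j)) Filter.atTop (nhds 0) := by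
    have h3 : (fun n => ∑ j ∈ Finset.range n,
        (tm k j - (4 * k + 6) * tm (k + 1) j - tm (k + 2) j)) = cer k := by
      funext n
      rw [Finset.sum_congr rfl (fun j _ => cer_succ k j), Finset.sum_range_sub]
      simp [cer]
    rw [h3]
    have h4 : Filter.Tendsto (fun j : ℕ => 1 / (j ! : ℝ)) Filter.atTop (nhds 0) :=
      hasSum_inv_factorial.summable.tendsto_atTop_zero
    exact squeeze_zero_norm (fun j => by rw [Real.norm_eq_abs]; exact cer_bound k j) h4
  have h5 := tendsto_nhds_unique hs.hasSum.tendsto_sum_nat h2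
  rw [h1] at h5
  linarith

lemma del_zero : del 0 = Real.exp 1 - 1 := by
  have h := (hasSum_nat_add_iff' 1).2 hasSum_inv_factorial
  simp only [Finset.sum_range_one, Nat.factorial_zero, Nat.cast_one, div_one] at h
  have h2 : (fun n : ℕ => 1 / ((n + 1)! : ℝ)) = tm 0 := by
    funext n
    unfold tm
    have a : (n ! : ℝ) ≠ 0 := by positivity
    have e1 : 0 + n = n := by ring
    simp only [e1]
    field_simp
  rw [h2] at h
  exact h.tsum_eq

lemma del_one : del 1 = 3 - Real.exp 1 := by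
  have h2 := (hasSum_nat_add_iff' 2).2 hasSum_inv_factorial
  have h3 := (hasSum_nat_add_iff' 3).2 hasSum_inv_factorial
  have h4 := h2.sub (h3.mul_left 2)
  have h5 : (fun n : ℕ => 1 / ((n + 2)! : ℝ) - 2 * (1 / ((n + 3)! : ℝ))) = tm 1 := by
    funext n
    unfold tm
    have e1 : (n + 3)! = (n + 3) * ((n + 2) * ((n + 1) * n !)) := by
      rw [show n + 3 = (n + 1 + 1) + 1 by ring, Nat.factorial_succ, Nat.factorial_succ,
        Nat.factorial_succ]
    have e2 : (n + 2)! = (n + 2) * ((n + 1) * n !) := by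
      rw [show n + 2 = (n + 1) + 1 by ring, Nat.factorial_succ, Nat.factorial_succ]
    rw [show 1 + n = n + 1 by ring, show 2 * 1 + n + 1 = n + 3 by ring, e1, e2,
      Nat.factorial_succ]
    push_cast
    have a : (n ! : ℝ) ≠ 0 := by positivity
    have b : ((n : ℝ) + 1) ≠ 0 := by positivity
    have c : ((n : ℝ) + 2) ≠ 0 := by positivity
    have d : ((n : ℝ) + 3) ≠ 0 := by positivity
    field_simp
    ring
  rw [h5] at h4
  have h6 : del 1 = _ := h4.tsum_eq
  rw [h6]
  simp [Finset.sum_range_succ]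
  norm_num [Nat.factorial]
  ring

end Pool.Agent.H13.EE
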