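import Pool.Agent.H13.EE.One

/-!
# `e` is not `n log ((s + 1) / (s - 1))`: the second approximant
-/

set_option autoImplicit false

namespace Pool.Agent.H13.EE

open Real

lemma del_anti (k : ℕ) : del (k + 1) ≤ del k := by
  have h := del_succ_le k
  have h2 := del_pos (k + 1)
  have h3 : (0 : ℝ) ≤ k := Nat.cast_nonneg k
  have := mul_le_mul_of_nonneg_right (show (1 : ℝ) ≤ 4 * k + 6 by linarith) h2.le
  linarith

lemma del_le_two (k : ℕ) (hk : 2 ≤ k) : del k ≤ del 2 := by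
  induction k, hk using Nat.le_induction with
  | base => exact le_rfl
  | succ k _ ih => exact (del_anti k).trans ih

lemma mod8 (q p : ℤ) (h : (q % 8 = 3 ∧ p % 8 = 4) ∨ (q % 8 = 7 ∧ p % 8 = 0)) (i : ℕ) :
    (q * Pk (4 * i) - p * Qk (4 * i)) % 8 = 7 ∧
    (q * Pk (4 * i + 1) - p * Qk (4 * i + 1)) % 8 = 5 ∧
    (q * Pk (4 * i + 2) - p * Qk (4 * i + 2)) % 8 = 5 ∧
    (q * Pk (4 * i + 3) - p * Qk (4 * i + 3)) % 8 = 7 := by
  obtain ⟨h1, h2, h3, h4, h5, h6, h7, h8⟩ := mod_eight i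
  rcases h with ⟨hq, hp⟩ | ⟨hq, hp⟩ <;>
  refine ⟨?_, ?_, ?_, ?_⟩ <;>
  simp [Int.sub_emod, Int.mul_emod, *]

/-- size of `N` for the second approximant -/
lemma second_size {s n : ℕ} (hs : 2 ≤ s) (hn : 1 ≤ n) (hE : (n : ℝ) * LL (1 / s) = exp 1) :
    0 < ((3 * s ^ 2 - 1 : ℤ) : ℝ) * exp 1 - ((6 * n * s : ℤ) : ℝ) ∧
    ((3 * s ^ 2 - 1 : ℤ) : ℝ) * (((3 * s ^ 2 - 1 : ℤ) : ℝ) * exp 1 - ((6 * n * s : ℤ) : ℝ)) ≤
      3 * exp 1 * (4 + 2 * (1 / (s : ℝ)) ^ 2) / (15 * (1 - (1 / (s : ℝ)) ^ 2)) := by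
  have hs' : (2 : ℝ) ≤ s := by exact_mod_cast hs
  have hn' : (0 : ℝ) < n := by exact_mod_cast hn
  have hx0 : (0 : ℝ) < 1 / s := by positivity
  have hx1 : (1 : ℝ) / s ≤ 1 / 2 := one_div_le_one_div_of_le (by norm_num) hs'
  obtain ⟨hb1, hb2⟩ := second_bounds hE hn' hx0 hx1
  have hs0 : (s : ℝ) ≠ 0 := by linarith
  have e1 : ((3 * s ^ 2 - 1 : ℤ) : ℝ) * exp 1 - ((6 * n * s : ℤ) : ℝ) =
      s ^ 2 * ((3 - (1 / (s : ℝ)) ^ 2) * exp 1 - 6 * n * (1 / s)) := by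
    push_cast
    field_simp
  have e2 : ((3 * s ^ 2 - 1 : ℤ) : ℝ) = s ^ 2 * (3 - (1 / (s : ℝ)) ^ 2) := by
    push_cast
    field_simp
  rw [e1, e2]
  have hx3 : (1 / (s : ℝ)) ^ 2 ≤ 1 / 4 := by
    have := mul_le_mul hx1 hx1 hx0.le (by norm_num)
    rw [sq]
    linarith
  have hx4 : s ^ 2 * (1 / (s : ℝ)) ^ 2 = 1 := by field_simp
  have hy0 : 0 < (1 / (s : ℝ)) ^ 2 := by positivity
  have hE0 := Real.exp_pos 1
  have e3 : (1 / (s : ℝ)) ^ 4 = ((1 / (s : ℝ)) ^ 2) ^ 2 := by ring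
  rw [e3] at hb1 hb2
  generalize hDD : (3 - (1 / (s : ℝ)) ^ 2) * exp 1 - 6 * n * (1 / s) = D at *
  set y : ℝ := (1 / (s : ℝ)) ^ 2 with hy
  have hs2 : (0 : ℝ) < s ^ 2 := by positivity
  have f1 : 0 < (1 - y) * (4 / 15 - y / 5) := mul_pos (by linarith) (by linarith)
  have f2 : 0 < exp 1 * y ^ 2 * ((1 - y) * (4 / 15 - y / 5)) := by positivity
  have hD : 0 < D := by linarith
  constructor
  · exact mul_pos hs2 hD
  · have f3 : (s : ℝ) ^ 2 * (3 - y) * (s ^ 2 * D) ≤ (s : ℝ) ^ 2 * 3 * (s ^ 2 * D) := by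
      apply mul_le_mul_of_nonneg_right _ (mul_pos hs2 hD).le
      apply mul_le_mul_of_nonneg_left _ hs2.le
      linarith
    have f4 : (s : ℝ) ^ 2 * 3 * (s ^ 2 * D) ≤
        (s : ℝ) ^ 2 * 3 * (s ^ 2 * (exp 1 * y ^ 2 * ((4 + 2 * y) / (15 * (1 - y))))) := by
      apply mul_le_mul_of_nonneg_left _ (by positivity)
      exact mul_le_mul_of_nonneg_left hb2 hs2.le
    have f5 : (s : ℝ) ^ 2 * 3 * (s ^ 2 * (exp 1 * y ^ 2 * ((4 + 2 * y) / (15 * (1 - y))))) =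
        3 * exp 1 * (4 + 2 * y) / (15 * (1 - y)) := by
      have : (s : ℝ) ^ 2 * 3 * (s ^ 2 * (exp 1 * y ^ 2 * ((4 + 2 * y) / (15 * (1 - y))))) =
          (s ^ 2 * y) ^ 2 * (3 * exp 1 * ((4 + 2 * y) / (15 * (1 - y)))) := by ring
      rw [this, hx4]
      ring
    linarith

lemma caseB {s n : ℕ} (hs : 2 ≤ s) (hn : 1 ≤ n) (hE : (n : ℝ) * LL (1 / s) = exp 1)
    {s' n' j : ℕ} (hj : 1 ≤ j) (hs2 : s = 2 ^ j * s') (hn2 : 2 * n = 2 ^ j * n')
    (hs'o : Odd s') (hn'o : Odd n') : False := by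
  obtain ⟨he1, he2⟩ := exp_one_bounds
  have hsr : (2 : ℝ) ≤ s := by exact_mod_cast hs
  obtain ⟨hη, hNup⟩ := second_size hs hn hE
  have hmod : ((3 * s ^ 2 - 1 : ℤ) % 8 = 3 ∧ (6 * n * s : ℤ) % 8 = 4) ∨
      ((3 * s ^ 2 - 1 : ℤ) % 8 = 7 ∧ (6 * n * s : ℤ) % 8 = 0) := by
    obtain ⟨c, hc⟩ := hs'o
    obtain ⟨d, hd⟩ := hn'o
    rcases Nat.lt_or_ge 1 j with hj2 | hj2
    · right
      obtain ⟨i, rfl⟩ : ∃ i, j = i + 2 := ⟨j - 2, by omega⟩
      have h1 : (s : ℤ) = 4 * (2 ^ i * s' : ℕ) := by rw [hs2]; push_cast; ring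
      have h2 : (2 * n : ℤ) = 4 * (2 ^ i * n' : ℕ) := by
        have : ((2 * n : ℕ) : ℤ) = ((2 ^ (i + 2) * n' : ℕ) : ℤ) := by rw [hn2]
        push_cast at this ⊢
        rw [this]; ring
      have h3 : (n : ℤ) = 2 * (2 ^ i * n' : ℕ) := by linarith
      rw [h1, h3]
      generalize ((2 ^ i * s' : ℕ) : ℤ) = a
      generalize ((2 ^ i * n' : ℕ) : ℤ) = b
      constructor
      · have : 3 * (4 * a) ^ 2 - 1 = 8 * (6 * a ^ 2) - 1 := by ring
        omega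
      · have : 6 * (2 * b) * (4 * a) = 8 * (6 * (a * b)) := by ring
        omega
    · left
      have hj1 : j = 1 := by omega
      rw [hj1, pow_one] at hs2 hn2
      have h3 : n = n' := by omega
      rw [hs2, h3, hc, hd]
      push_cast
      constructor
      · have : (3 : ℤ) * (2 * (2 * c + 1)) ^ 2 - 1 = 8 * (6 * (c ^ 2 + c) + 1) + 3 := by ring
        omega
      · have : (6 : ℤ) * (2 * d + 1) * (2 * (2 * c + 1)) = 8 * (6 * c * d + 3 * c + 3 * d + 1) + 4 := by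
          ring
        omega
  have hodd : Odd ((3 * s ^ 2 - 1 : ℤ) + (6 * n * s : ℤ)) := by
    rw [Int.odd_iff]
    omega
  have hq11 : (11 : ℤ) ≤ 3 * s ^ 2 - 1 := by
    have h1 : (2 : ℤ) ≤ s := by exact_mod_cast hs
    have := mul_le_mul h1 h1 (by norm_num) (by linarith)
    linarith [sq (s : ℤ)]
  obtain ⟨k, A, B, A', B', u, v, h⟩ := exists_lat (3 * s ^ 2 - 1) (6 * n * s) (by linarith)
    hodd hη
  have hq11' : (11 : ℝ) ≤ ((3 * s ^ 2 - 1 : ℤ) : ℝ) := by exact_mod_cast hq11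
  have hk1 : 1 ≤ k := by
    by_contra hcon
    have hk0 : k = 0 := by omega
    have h1 := h.hB1
    have h3 := h.B_lt
    rw [hk0, zero_add, del_one] at h1
    have := mul_le_mul_of_nonneg_right hq11' (show (0 : ℝ) ≤ 3 - exp 1 by linarith)
    linarith
  have hs4 : 4 ≤ k → 4 ≤ s := by
    intro hk4
    by_contra hcon
    have h2 : s = 2 := by
      have h5 : s % 2 = 0 := by
        obtain ⟨i, rfl⟩ : ∃ i, j = i + 1 := ⟨j - 1, by omega⟩
        rw [hs2, pow_succ]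
        have : 2 ^ i * 2 * s' = 2 * (2 ^ i * s') := by ring
        omega
      omega
    have h3 := h.hB2
    have h4 := h.le_B'
    rw [h2] at h3
    have h5 := del_le_two k (by omega)
    have h6 := del_succ_le 1
    rw [del_one] at h6
    push_cast at h3
    norm_num at h3 h6
    have h7 : del 2 ≤ 0.02818 := by
      have : del (1 + 1) = del 2 := rfl
      linarith
    linarith
  have hN27 : ((3 * s ^ 2 - 1 : ℤ) : ℝ) * (((3 * s ^ 2 - 1 : ℤ) : ℝ) * exp 1 -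
      ((6 * n * s : ℤ) : ℝ)) ≤ 3.27 := by
    refine hNup.trans ?_
    have hy1 : (1 / (s : ℝ)) ^ 2 ≤ 1 / 4 := by
      have := inv_sq_le (by norm_num) hsr
      norm_num at this ⊢
      linarith
    have hy0 : 0 ≤ (1 / (s : ℝ)) ^ 2 := by positivity
    have : 3 * exp 1 * (4 + 2 * (1 / (s : ℝ)) ^ 2) / (15 * (1 - (1 / (s : ℝ)) ^ 2)) ≤
        3 * 2.7183 * (4 + 2 * (1 / 4)) / (15 * (1 - 1 / 4)) := by
      apply div_le_div₀ (by norm_num) _ (by norm_num) (by linarith)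
      apply mul_le_mul (by linarith) (by linarith) (by linarith) (by norm_num)
    refine this.trans (by norm_num)
  have hN24 : 4 ≤ s → ((3 * s ^ 2 - 1 : ℤ) : ℝ) * (((3 * s ^ 2 - 1 : ℤ) : ℝ) * exp 1 -
      ((6 * n * s : ℤ) : ℝ)) ≤ 2.4 := by
    intro hs4
    refine hNup.trans ?_
    have hs4' : (4 : ℝ) ≤ s := by exact_mod_cast hs4
    have hy1 : (1 / (s : ℝ)) ^ 2 ≤ 1 / 16 := by
      have := inv_sq_le (by norm_num) hs4'
      norm_num at this ⊢
      linarith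
    have hy0 : 0 ≤ (1 / (s : ℝ)) ^ 2 := by positivity
    have : 3 * exp 1 * (4 + 2 * (1 / (s : ℝ)) ^ 2) / (15 * (1 - (1 / (s : ℝ)) ^ 2)) ≤
        3 * 2.7183 * (4 + 2 * (1 / 16)) / (15 * (1 - 1 / 16)) := by
      apply div_le_div₀ (by norm_num) _ (by norm_num) (by linarith)
      apply mul_le_mul (by linarith) (by linarith) (by linarith) (by norm_num)
    refine this.trans (by norm_num)
  have hAB := h.hN
  have hu := h.hu'
  have hv := h.hv'
  have hu1 := h.u_pos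
  have eu := h.hu
  have ev := h.hv
  have hk1' : (1 : ℝ) ≤ k := by exact_mod_cast hk1
  have hAA := h.hA2 hk1
  have h6 : 6 * A' ≤ A := by
    have := mul_le_mul_of_nonneg_right (show (6 : ℝ) ≤ 4 * k + 2 by linarith) h.A'_pos.le
    linarith
  have hdec : ∃ i r : ℕ, k = 4 * i + r ∧ (r = 0 ∨ r = 1 ∨ r = 2 ∨ r = 3) :=
    ⟨k / 4, k % 4, by omega, by omega⟩
  obtain ⟨i, r, hki, hr⟩ := hdec
  obtain ⟨m0, m1, m2, m3⟩ := mod8 _ _ hmod i
  obtain ⟨m4, -, -, -⟩ := mod8 _ _ hmod (i + 1)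
  have hAB' : Even k → A' < B' := by
    intro hke
    have h1 := mul_le_mul_of_nonneg_left h.le_B' h.A_pos.le
    have h2 := mul_pos h.A'_pos h.B_pos
    by_contra hcon
    push Not at hcon
    -- then `v = A' - B'` is nonnegative and odd, so at least `1`
    rw [hke.neg_one_pow, one_mul] at hv
    have h3 : (0 : ℝ) ≤ v := by rw [hv]; linarith
    have h4 : (0 : ℤ) ≤ v := by exact_mod_cast h3
    obtain ⟨c, hc⟩ := h.v_odd
    have h5 : 1 ≤ v := by omega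
    have h5' : (1 : ℝ) ≤ v := by exact_mod_cast h5
    have hk2 : (2 : ℝ) ≤ k := by
      obtain ⟨c, hc⟩ := hke
      have : 2 ≤ k := by omega
      exact_mod_cast this
    have h6 : 10 * A' ≤ A := by
      have := mul_le_mul_of_nonneg_right (show (10 : ℝ) ≤ 4 * k + 2 by linarith) h.A'_pos.le
      linarith
    have h7 : 1.5 ≤ A' := by linarith [h.le_B']
    have h8 : A ≤ 13.08 := by linarith
    linarith
  rcases hr with hr | hr | hr | hr
  · -- `k ≡ 0 mod 4`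
    rw [hr, add_zero] at hki
    have hk4 : 4 ≤ k := by omega
    have hk4' : (4 : ℝ) ≤ k := by exact_mod_cast hk4
    have hke : Even k := ⟨2 * i, by omega⟩
    have hvn := hAB' hke
    rw [hke.neg_one_pow, one_mul] at hu hv
    rw [hki] at eu ev
    rw [← eu] at m1
    rw [← ev] at m0
    have h22 : 22 * B ≤ B' := by
      have := mul_le_mul_of_nonneg_right (show (22 : ℝ) ≤ 4 * k + 6 by linarith) h.B_pos.le
      linarith [h.hB]
    have hv1 : v ≤ -1 := int_of_neg hv (by linarith)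
    exact ev_mid h.A_pos h.B_pos h.A'_pos h.B_lt h22 hAB (hN24 (hs4 hk4)) hu (by omega) hv hv1
  · -- `k ≡ 1 mod 4`
    rw [hr] at hki
    have hko : Odd k := ⟨2 * i, by omega⟩
    rw [hko.neg_one_pow] at hu hv
    rw [hki] at eu ev
    rw [show 4 * i + 1 + 1 = 4 * i + 2 by ring, ] at eu
    rw [← eu] at m2
    rw [← ev] at m1
    have hv0 : 1 ≤ v := int_of_pos (x := A' + B') (by rw [hv]; ring)
      (by linarith [h.A'_pos, h.B'_pos])
    exact od_large h.A_pos h.B_pos h.A'_pos h.le_B' hAB h6 hN27 (by rw [hu]; ring) (by omega)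
      (by rw [hv]; ring) (by omega)
  · -- `k ≡ 2 mod 4`
    rw [hr] at hki
    have hke : Even k := ⟨2 * i + 1, by omega⟩
    have hvn := hAB' hke
    rw [hke.neg_one_pow, one_mul] at hu hv
    rw [hki] at eu ev
    rw [show 4 * i + 2 + 1 = 4 * i + 3 by ring] at eu
    rw [← eu] at m3
    rw [← ev] at m2
    have hv1 : v ≤ -1 := int_of_neg hv (by linarith)
    exact ev_large h.A_pos h.B_pos h.A'_pos h.B_lt hAB hN27 hu (by omega) hv (by omega)
  · -- `k ≡ 3 mod 4`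
    rw [hr] at hki
    have hko : Odd k := ⟨2 * i + 1, by omega⟩
    rw [hko.neg_one_pow] at hu hv
    rw [hki] at eu ev
    rw [show 4 * i + 3 + 1 = 4 * (i + 1) by ring] at eu
    rw [← eu] at m4
    rw [← ev] at m3
    have hv0 : 1 ≤ v := int_of_pos (x := A' + B') (by rw [hv]; ring)
      (by linarith [h.A'_pos, h.B'_pos])
    exact od_large h.A_pos h.B_pos h.A'_pos h.le_B' hAB h6 hN27 (by rw [hu]; ring) (by omega)
      (by rw [hv]; ring) (by omega)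

/-- `e ≠ n log ((s + 1) / (s - 1))` -/
theorem m_one {s n : ℕ} (hs : 2 ≤ s) (hn : 1 ≤ n) : (n : ℝ) * LL (1 / s) ≠ exp 1 := by
  intro hE
  obtain ⟨a, s', hs'o, hs2⟩ := Nat.exists_eq_two_pow_mul_odd (n := s) (by omega)
  obtain ⟨b, n', hn'o, hn2⟩ := Nat.exists_eq_two_pow_mul_odd (n := 2 * n) (by omega)
  have hb1 : 1 ≤ b := by
    by_contra hcon
    have hb0 : b = 0 := by omega
    rw [hb0, pow_zero, one_mul] at hn2
    obtain ⟨c, hc⟩ := hn'o
    omega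
  rcases lt_trichotomy a b with hab | hab | hab
  · obtain ⟨d, rfl⟩ : ∃ d, b = a + d + 1 := ⟨b - a - 1, by omega⟩
    refine caseA hs hn hE (q := s') (p := 2 * (2 ^ d * n')) (j := a) ?_ ?_ ?_
    · rw [hs2]; push_cast; ring
    · have : ((2 * n : ℕ) : ℤ) = ((2 ^ (a + d + 1) * n' : ℕ) : ℤ) := by rw [hn2]
      push_cast at this ⊢
      rw [this]; ring
    · have h1 : Odd (s' : ℤ) := by exact_mod_cast hs'o
      exact h1.add_even (even_two_mul _)
  · subst hab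
    exact caseB hs hn hE hb1 hs2 hn2 hs'o hn'o
  · obtain ⟨d, rfl⟩ : ∃ d, a = b + d + 1 := ⟨a - b - 1, by omega⟩
    refine caseA hs hn hE (q := 2 * (2 ^ d * s')) (p := n') (j := b) ?_ ?_ ?_
    · rw [hs2]; push_cast; ring
    · have : ((2 * n : ℕ) : ℤ) = ((2 ^ b * n' : ℕ) : ℤ) := by rw [hn2]
      push_cast at this ⊢
      rw [this]
    · have h1 : Odd (n' : ℤ) := by exact_mod_cast hn'o
      exact (even_two_mul _).add_odd h1

end Pool.Agent.H13.EE
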