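import Pool.Agent.H13.EE.Large
import Pool.Agent.H13.EE.OneB

/-!
# `b exp (e / n)` is not an integer
-/

set_option autoImplicit false

namespace Pool.Agent.H13.EE

open Real

lemma ee_lower : (15.153 : ℝ) < exp (exp 1) := by
  have h1 := Real.exp_one_gt_d9
  have h2 : exp 1 * exp 1 * exp 0.71828 ≤ exp (exp 1) := by
    rw [← exp_add, ← exp_add]
    apply exp_le_exp.mpr
    norm_num at h1 ⊢
    linarith
  have h3 := Real.sum_le_exp_of_nonneg (show (0 : ℝ) ≤ 0.71828 by norm_num) 7
  simp only [Finset.sum_range_succ, Finset.sum_range_zero, Nat.factorial] at h3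
  norm_num at h3
  have h4 : (2.7182818283 : ℝ) * 2.7182818283 ≤ exp 1 * exp 1 :=
    mul_le_mul h1.le h1.le (by norm_num) (exp_pos 1).le
  have h5 := mul_le_mul h4 h3 (by norm_num) (by positivity)
  have h6 : (0.71828 : ℝ) = 17957 / 25000 := by norm_num
  rw [h6] at h2
  norm_num at h5 ⊢
  linarith

lemma ee_upper : exp (exp 1) < 15.156 := by
  have h1 := Real.exp_one_lt_d9
  have h2 : exp (exp 1) ≤ exp 1 * exp 1 * exp 0.71829 := by
    rw [← exp_add, ← exp_add]
    apply exp_le_exp.mpr
    norm_num at h1 ⊢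
    linarith
  have h3 := Real.exp_bound' (show (0 : ℝ) ≤ 0.71829 by norm_num) (by norm_num)
    (show 0 < 7 by norm_num)
  simp only [Finset.sum_range_succ, Finset.sum_range_zero, Nat.factorial] at h3
  norm_num at h3
  have h4 : exp 1 * exp 1 ≤ (2.7182818286 : ℝ) * 2.7182818286 :=
    mul_le_mul h1.le h1.le (exp_pos 1).le (by norm_num)
  have h5 := mul_le_mul h4 h3 (by positivity) (by norm_num)
  norm_num at h5 h2 ⊢
  linarith

/-- a finite verification -/
def chk : Bool :=
  (List.range 15).all fun n => (List.range 15).all fun b => (List.range 240).all fun a =>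
    !(Nat.ble 1 n && Nat.ble 1 b && Nat.ble b n && Nat.blt (15153 * b ^ n) (1000 * a ^ n) &&
      Nat.blt (1000 * a ^ n) (15156 * b ^ n))

lemma chk_true : chk = true := by decide +kernel

lemma check14 {n b a : ℕ} (h1 : n < 15) (h2 : b < 15) (h3 : a < 240) (h4 : 1 ≤ n) (h5 : 1 ≤ b)
    (h6 : b ≤ n) (h7 : 15153 * b ^ n < 1000 * a ^ n) (h8 : 1000 * a ^ n < 15156 * b ^ n) :
    False := by
  have h := chk_true
  unfold chk at h
  rw [List.all_eq_true] at h
  have h := h n (List.mem_range.mpr h1)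
  rw [List.all_eq_true] at h
  have h := h b (List.mem_range.mpr h2)
  rw [List.all_eq_true] at h
  have h := h a (List.mem_range.mpr h3)
  have e1 : Nat.ble 1 n = true := Nat.ble_eq.mpr h4
  have e2 : Nat.ble 1 b = true := Nat.ble_eq.mpr h5
  have e3 : Nat.ble b n = true := Nat.ble_eq.mpr h6
  have e4 : Nat.blt (15153 * b ^ n) (1000 * a ^ n) = true := Nat.blt_eq.mpr h7
  have e5 : Nat.blt (1000 * a ^ n) (15156 * b ^ n) = true := Nat.blt_eq.mpr h8
  rw [e1, e2, e3, e4, e5] at h
  exact absurd h (by decide)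

lemma small_case {n b : ℕ} {a : ℤ} (hn : 1 ≤ n) (hn2 : n < 15) (hb : 1 ≤ b) (hbn : b ≤ n)
    (h : (b : ℝ) * exp (exp 1 / n) = a) : False := by
  have hn' : (1 : ℝ) ≤ n := by exact_mod_cast hn
  have hb' : (1 : ℝ) ≤ b := by exact_mod_cast hb
  have ha0 : (0 : ℝ) < a := by
    rw [← h]
    positivity
  have ha1 : 0 < a := by exact_mod_cast ha0
  lift a to ℕ using ha1.le
  push_cast at h ha0
  have hpow : (a : ℝ) ^ n = b ^ n * exp (exp 1) := by
    rw [← h, mul_pow, ← Real.exp_nat_mul]
    congr 2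
    field_simp
  have hbn0 : (0 : ℝ) < (b : ℝ) ^ n := by positivity
  have e1 := mul_lt_mul_of_pos_left ee_lower hbn0
  have e2 := mul_lt_mul_of_pos_left ee_upper hbn0
  rw [← hpow] at e1 e2
  have f1 : (15153 : ℝ) * b ^ n < 1000 * a ^ n := by linarith
  have f2 : (1000 : ℝ) * a ^ n < 15156 * b ^ n := by linarith
  have g1 : 15153 * b ^ n < 1000 * a ^ n := by exact_mod_cast f1
  have g2 : 1000 * a ^ n < 15156 * b ^ n := by exact_mod_cast f2
  have ha : a < 240 := by
    have k1 : exp (exp 1 / n) ≤ exp (exp 1) := by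
      apply exp_le_exp.mpr
      exact div_le_self (exp_pos 1).le hn'
    have k2 : (a : ℝ) < 240 := by
      have k3 : (b : ℝ) ≤ 14 := by
        have : b ≤ 14 := by omega
        exact_mod_cast this
      have k4 := ee_upper
      have k5 : (b : ℝ) * exp (exp 1 / n) ≤ 14 * exp (exp 1) :=
        mul_le_mul k3 k1 (exp_pos _).le (by norm_num)
      rw [h] at k5
      linarith
    exact_mod_cast k2
  exact check14 hn2 (by omega) ha hn hb hbn g1 g2

lemma LL_eq {m s : ℕ} (hms : m < s) {a b c : ℝ} (hc : 0 < c) (ha : 0 < a) (hb : 0 < b)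
    (h1 : (s : ℝ) + m = c * a) (h2 : (s : ℝ) - m = c * b) :
    LL ((m : ℝ) / s) = log (a / b) := by
  have hs : (0 : ℝ) < s := by
    have : 0 < s := by omega
    exact_mod_cast this
  unfold LL
  have e1 : 1 + (m : ℝ) / s = c * a / s := by
    rw [← h1]
    field_simp
  have e2 : 1 - (m : ℝ) / s = c * b / s := by
    rw [← h2]
    field_simp
  rw [e1, e2, ← Real.log_div (by positivity) (by positivity)]
  congr 1
  field_simp

/-- reduction to lowest terms -/
lemma red {n b : ℕ} {a : ℤ} (hn : 1 ≤ n) (hb : 1 ≤ b) (h : (b : ℝ) * exp (exp 1 / n) = a) :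
    ∃ m s m0 b' : ℕ, 1 ≤ m ∧ m < s ∧ (Odd s ∨ (Even s ∧ Odd m)) ∧ b' ≤ b ∧ m ≤ m0 ∧
      m0 * s = m * (2 * b' + m0) ∧ (n : ℝ) * LL (m / s) = exp 1 ∧ (m0 ≤ 2 → m = 1) := by
  have hn' : (1 : ℝ) ≤ n := by exact_mod_cast hn
  have hb1 : (1 : ℝ) ≤ b := by exact_mod_cast hb
  have hexp : 1 < exp (exp 1 / n) := by
    rw [Real.one_lt_exp_iff]
    positivity
  have ha0 : (b : ℝ) < a := by
    rw [← h]
    nlinarith
  have ha1 : (b : ℤ) < a := by exact_mod_cast ha0
  lift a to ℕ using (by omega)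
  have ha2 : b < a := by exact_mod_cast ha1
  push_cast at h ha0
  obtain ⟨a', b', hco, haa, hbb⟩ := Nat.exists_coprime a b
  have hg : 0 < Nat.gcd a b := Nat.gcd_pos_of_pos_right _ (by omega)
  set g := Nat.gcd a b with hgdef
  have hg' : (0 : ℝ) < g := by exact_mod_cast hg
  have hb'0 : 0 < b' := by
    rcases Nat.eq_zero_or_pos b' with h0 | h0
    · rw [h0, zero_mul] at hbb
      omega
    · exact h0
  have hb'b : b' ≤ b := by
    rw [hbb]
    exact Nat.le_mul_of_pos_right _ hg
  have hab' : b' < a' := by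
    by_contra hcon
    push Not at hcon
    have := Nat.mul_le_mul_right g hcon
    omega
  have h' : (b' : ℝ) * exp (exp 1 / n) = a' := by
    have e1 : (a : ℝ) = a' * g := by exact_mod_cast haa
    have e2 : (b : ℝ) = b' * g := by exact_mod_cast hbb
    rw [e1, e2] at h
    have : (g : ℝ) * (b' * exp (exp 1 / n)) = g * a' := by linarith
    exact mul_left_cancel₀ hg'.ne' this
  have hb'1 : (0 : ℝ) < b' := by exact_mod_cast hb'0
  have ha'1 : (0 : ℝ) < a' := by
    have : 0 < a' := by omega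
    exact_mod_cast this
  have hlog : log ((a' : ℝ) / b') = exp 1 / n := by
    have : (a' : ℝ) / b' = exp (exp 1 / n) := by
      rw [← h']
      field_simp
    rw [this, Real.log_exp]
  have hnlog : (n : ℝ) * log ((a' : ℝ) / b') = exp 1 := by
    rw [hlog]
    field_simp
  obtain ⟨d, hd⟩ : ∃ d, a' = b' + d := ⟨a' - b', by omega⟩
  rcases Nat.even_or_odd d with hde | hdo
  · obtain ⟨c, hc⟩ := hde
    have hb'o : b' % 2 = 1 := by
      by_contra hcon
      have h2b : 2 ∣ b' := by omega
      have h2a : 2 ∣ a' := by omega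
      have := Nat.dvd_gcd h2a h2b
      rw [hco.gcd_eq_one] at this
      omega
    refine ⟨c, b' + c, d, b', by omega, by omega, ?_, hb'b, by omega, ?_, ?_, by omega⟩
    · rcases Nat.even_or_odd c with hce | hco
      · left
        obtain ⟨w, hw⟩ := hce
        exact ⟨b' / 2 + w, by omega⟩
      · right
        obtain ⟨w, hw⟩ := id hco
        refine ⟨⟨b' / 2 + 1 + w, by omega⟩, hco⟩
    · rw [hc]
      ring
    · rw [LL_eq (a := a') (b := b') (c := 1) (by omega) one_pos ha'1 hb'1]
      · exact hnlog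
      · rw [hd, hc]
        push_cast
        ring
      · push_cast
        ring
  · obtain ⟨c, hc⟩ := id hdo
    refine ⟨d, 2 * b' + d, d, b', by omega, by omega, ?_, hb'b, le_rfl, rfl, ?_, by omega⟩
    · left
      exact ⟨b' + c, by omega⟩
    · rw [LL_eq (a := a') (b := b') (c := 2) (by omega) two_pos ha'1 hb'1]
      · exact hnlog
      · rw [hd]
        push_cast
        ring
      · push_cast
        ring

end Pool.Agent.H13.EE
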