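import Pool.Agent.H30.EE.TargetsI
import Pool.Agent.H27.LV.All

/-!
# Local estimate of the determinant of the height inequality
-/

set_option autoImplicit false

namespace Pool.Agent.H13.EE

open MvPolynomial SC Pool.Agent.H27.LV Pool.Agent.H17.VG Pool.Agent.H30.EE

/-- adding multiples of one column to the others -/
lemma det_col' {F : Type*} [Field F] {m : Type*} [Fintype m] [DecidableEq m] {A B : Matrix m m F}
    (c : m → F) (k : m) (hk : c k = 0) (h : ∀ i j, A i j = B i j + c j * B i k) :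
    A.det = B.det := by
  rw [← Matrix.det_transpose A, ← Matrix.det_transpose B]
  exact Matrix.det_eq_of_forall_row_eq_smul_add_const c k hk fun i j => h j i

section

variable {R k K : Type} [Field R] [Field k] [Field K] [Algebra k K] [Algebra R K] {n r : ℕ}

lemma opV_D (D' : Derivation R K K) (w : Fin (n + 1) → K) (i : Fin (n + 1)) :
    opV ((D', 0) : Op R K n) w i = D' (w i) := by
  unfold opV
  simp

/-- operators which do not decrease orders do not decrease the smallest order of a vector -/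
lemma ge_opV {v : DV k K} {τ : Op R K n} (hτ : LocOp v τ) {w : Fin (n + 1) → K} {a : ℤ}
    (hw : ∀ i, ge v a (w i)) (i : Fin (n + 1)) : ge v a (opV τ w i) := by
  unfold opV
  have h1 : ge v a (τ.1 (w i)) := by
    by_cases h0 : w i = 0
    · rw [h0, map_zero]
      exact ge_zero v a
    · exact (hτ.der (w i)).mono ((hw i).resolve_left h0)
  refine h1.sub (ge_sum v _ _ _ fun j _ => ?_)
  simpa using (hτ.mat i j).mul (hw j)

lemma ge_fq {v : DV k K} {J : Fin (r + 1) → Fin (n + 1)} {z : Fin (r + 1) → Fin (n + 1) → K}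
    (hz : ∀ i j, ge v 0 (z i j)) {w : Fin (n + 1) → K} {a : ℤ} (hw : ∀ i, ge v a (w i))
    (j : Fin (n + 1)) : ge v a (fq J z w j) := by
  unfold fq
  refine (hw j).sub (ge_sum v _ _ _ fun i _ => ?_)
  simpa using (hw (J i)).mul (hz i j)

end

theorem pf_ILC (hMO : T_MO) : T_ILC := by
  intro R k K _ _ _ _ _ _ _ _ htr n r D D' hD hDD L v J z hch hz x hxL hx0 κ _ _ e0 τ hτ
  obtain ⟨a, ha⟩ : ∃ a, a = mo v x := ⟨_, rfl⟩
  obtain ⟨o, ho⟩ : ∃ o, o = ordD v D := ⟨_, rfl⟩
  have hx : ∀ i, ge v a (x i) := by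
    rw [ha]
    exact ((hMO k K v _ x).2 hx0).1
  have hdor := dor k K htr D hD v
  rw [← ho] at hdor
  have hu0 := v.unif_ne_zero
  obtain ⟨t, ht⟩ : ∃ t : K, t = v.unif ^ a := ⟨_, rfl⟩
  have ht0 : t ≠ 0 := by rw [ht]; exact zpow_ne_zero _ hu0
  have hto : v.ord t = a := by rw [ht, v.ord_unif_zpow]
  have hto' : ge v a t := Or.inr hto.ge
  -- the derivative of the normalised coordinates
  have hDx : ∀ i, ge v (a + o) (D' (x i) + -(D t / t) * x i) := by
    intro i
    have h1 : 0 ≤ v.ord (x i * t⁻¹) := by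
      by_cases h0 : x i = 0
      · rw [h0, zero_mul, v.ord_zero]
      · rw [v.ord_mul' h0 (inv_ne_zero ht0), v.ord_inv, hto]
        have := (hx i).resolve_left h0
        omega
    have h2 := hto'.mul (hdor.2.1.1 _ h1)
    have e : D' (x i) + -(D t / t) * x i = t * D (x i * t⁻¹) := by
      rw [hDD]
      have h3 : x i = (x i * t⁻¹) * t := by field_simp
      have h4 : D (x i) = (x i * t⁻¹) * D t + t * D (x i * t⁻¹) := by
        conv_lhs => rw [h3, D.leibniz, smul_eq_mul, smul_eq_mul]
      rw [h4]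
      field_simp
      ring
    rw [e]
    exact h2
  have hDz : ∀ i j, ge v o (D' (z i j)) := by
    intro i j
    rw [hDD]
    rcases hz i j with h0 | h0
    · rw [h0, map_zero]
      exact ge_zero v o
    · exact hdor.2.1.1 _ h0
  obtain ⟨M, hM⟩ : ∃ M : Matrix (κ ⊕ Fin 2) (κ ⊕ Fin 2) K,
    M = (matF J z x D' τ).submatrix e0 id := ⟨_, rfl⟩
  obtain ⟨A, hA⟩ : ∃ A : Matrix (κ ⊕ Fin 2) (κ ⊕ Fin 2) K, A = Matrix.of fun r l =>
    M r l + (Sum.elim (fun _ => 0) (fun s : Fin 2 => if s = 0 then -(D t / t) else 0) l) *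
      M r (Sum.inr 1) := ⟨_, rfl⟩
  have h1 : A.det = M.det := by
    refine det_col' (Sum.elim (fun _ => 0) (fun s : Fin 2 => if s = 0 then -(D t / t) else 0))
      (Sum.inr 1) (by simp) ?_
    intro r l
    rw [hA, Matrix.of_apply]
  rw [← hM, ← h1, ← ha, ← ho]
  obtain ⟨wr, hwr⟩ : ∃ wr : Row J → ℤ, wr = Sum.elim (fun _ => a) (fun _ => 0) := ⟨_, rfl⟩
  have hentry : ∀ i l, ge v (wr (e0 i) + (Sum.elim (fun _ : κ => (0 : ℤ))
      (fun s : Fin 2 => if s = 0 then o else 0) l)) (A i l) := by
    intro i l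
    rw [hA, Matrix.of_apply, hM, hwr]
    simp only [Matrix.submatrix_apply, id]
    rcases l with l | s
    · simp only [Sum.elim_inl, zero_mul, add_zero, matF, Matrix.of_apply]
      rcases e0 i with j | p
      · exact ge_opV (hτ l) hx _
      · exact ge_fq hz (fun j => ge_opV (hτ l) (hz p.1) j) _
    · fin_cases s
      · simp only [Sum.elim_inr, matF, Matrix.of_apply, Fin.zero_eta, if_true, Fin.isValue,
          one_ne_zero, if_false]
        rcases e0 i with j | p
        · simp only [Sum.elim_inl, colF, colX, opV_D]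
          exact hDx _
        · simp only [Sum.elim_inr, colF, colX, mul_zero, add_zero, zero_add]
          exact ge_fq hz (fun j => by rw [opV_D]; exact hDz _ _) _
      · simp only [Sum.elim_inr, matF, Matrix.of_apply, Fin.mk_one, Fin.isValue, one_ne_zero,
          if_false, zero_mul, add_zero]
        rcases e0 i with j | p
        · exact hx _
        · exact ge_zero v _
  have h3 := Pool.Agent.H70.LV.wdt k K v (κ ⊕ Fin 2) A (fun i => wr (e0 i)) _ hentry
  refine h3.mono (le_of_eq ?_)
  rw [Equiv.sum_comp e0 wr, hwr, Fintype.sum_sum_type, Fintype.sum_sum_type]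
  simp only [Sum.elim_inl, Sum.elim_inr, Finset.sum_const_zero, Finset.sum_const,
    Finset.card_univ, Fintype.card_fin, Fin.sum_univ_two, if_true, one_ne_zero, if_false,
    nsmul_eq_mul, Nat.cast_add, Nat.cast_one, add_zero, zero_add, Fin.isValue]

end Pool.Agent.H13.EE
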