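import Mathlib

/-!
# Pade approximants of `log ((s + m) / (s - m))`
-/

set_option autoImplicit false

namespace Pool.Agent.H13.EE

/-- `log ((1 + x) / (1 - x))` -/
noncomputable def LL (x : ℝ) : ℝ := Real.log (1 + x) - Real.log (1 - x)

lemma LL_lower {x : ℝ} (h0 : 0 < x) (h1 : x < 1) :
    2 * x + 2 * x ^ 3 / 3 + 2 * x ^ 5 / 5 ≤ LL x := by
  have h := Real.hasSum_log_sub_log_of_abs_lt_one (show |x| < 1 by rw [abs_of_pos h0]; exact h1)
  have h2 := sum_le_hasSum (Finset.range 3) (fun i _ => by positivity) h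
  simp only [Finset.sum_range_succ, Finset.sum_range_zero] at h2
  unfold LL
  norm_num at h2
  linarith

lemma LL_upper {x : ℝ} (h0 : 0 < x) (h1 : x < 1) :
    LL x ≤ 2 * x + 2 * x ^ 3 / 3 + 2 * x ^ 5 / (5 * (1 - x ^ 2)) := by
  have h := Real.hasSum_log_sub_log_of_abs_lt_one (show |x| < 1 by rw [abs_of_pos h0]; exact h1)
  have h2 := (hasSum_nat_add_iff' 2).2 h
  have hx2 : x ^ 2 < 1 := by nlinarith
  have h3 : HasSum (fun k : ℕ => 2 / 5 * x ^ 5 * (x ^ 2) ^ k) (2 / 5 * x ^ 5 * (1 - x ^ 2)⁻¹) :=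
    (hasSum_geometric_of_lt_one (by positivity) hx2).mul_left _
  have h4 := hasSum_le (fun k => by
    show (2 : ℝ) * (1 / (2 * ((k + 2 : ℕ) : ℝ) + 1)) * x ^ (2 * (k + 2) + 1) ≤
      2 / 5 * x ^ 5 * (x ^ 2) ^ k
    have e1 : x ^ (2 * (k + 2) + 1) = x ^ 5 * (x ^ 2) ^ k := by ring
    rw [e1]
    have e2 : (1 : ℝ) / (2 * ((k + 2 : ℕ) : ℝ) + 1) ≤ 1 / 5 := by
      apply one_div_le_one_div_of_le (by norm_num)
      push_cast
      have : (0 : ℝ) ≤ k := Nat.cast_nonneg k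
      linarith
    have e3 : 0 ≤ x ^ 5 * (x ^ 2) ^ k := by positivity
    nlinarith [mul_le_mul_of_nonneg_right e2 e3]) h2 h3
  simp only [Finset.sum_range_succ, Finset.sum_range_zero] at h4
  unfold LL
  have h5 : 2 * x ^ 5 / (5 * (1 - x ^ 2)) = 2 / 5 * x ^ 5 * (1 - x ^ 2)⁻¹ := by
    have : (1 - x ^ 2) ≠ 0 := by linarith
    field_simp
  rw [h5]
  norm_num at h4 ⊢
  linarith

lemma LL_upper1 {x : ℝ} (h0 : 0 < x) (h1 : x < 1) :
    LL x ≤ 2 * x + 2 * x ^ 3 / (3 * (1 - x ^ 2)) := by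
  refine (LL_upper h0 h1).trans ?_
  have hx2 : 0 < 1 - x ^ 2 := by nlinarith
  have e : 2 * x + 2 * x ^ 3 / (3 * (1 - x ^ 2)) -
      (2 * x + 2 * x ^ 3 / 3 + 2 * x ^ 5 / (5 * (1 - x ^ 2))) =
      4 * x ^ 5 / (15 * (1 - x ^ 2)) := by
    field_simp
    ring
  have : 0 ≤ 4 * x ^ 5 / (15 * (1 - x ^ 2)) := by positivity
  linarith

lemma LL_upper0 {x : ℝ} (h0 : 0 < x) (h1 : x < 1) : LL x ≤ 2 * x / (1 - x ^ 2) := by
  refine (LL_upper1 h0 h1).trans ?_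
  have hx2 : 0 < 1 - x ^ 2 := by nlinarith
  have e : 2 * x / (1 - x ^ 2) - (2 * x + 2 * x ^ 3 / (3 * (1 - x ^ 2))) =
      4 * x ^ 3 / (3 * (1 - x ^ 2)) := by
    field_simp
    ring
  have : 0 ≤ 4 * x ^ 3 / (3 * (1 - x ^ 2)) := by positivity
  linarith

lemma LL_pos {x : ℝ} (h0 : 0 < x) (h1 : x < 1) : 0 < LL x := by
  have := LL_lower h0 h1
  have h3 : 0 < 2 * x + 2 * x ^ 3 / 3 + 2 * x ^ 5 / 5 := by positivity
  linarith

section

variable {E n x : ℝ}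

lemma n_lower (hE : n * LL x = E) (hn : 0 < n) (h0 : 0 < x) (h1 : x < 1) :
    E * (1 - x ^ 2) ≤ 2 * x * n := by
  have h := LL_upper0 h0 h1
  have hx2 : 0 < 1 - x ^ 2 := by nlinarith
  rw [le_div_iff₀ hx2] at h
  rw [← hE]
  nlinarith [mul_le_mul_of_nonneg_left h hn.le]

lemma n_upper (hE : n * LL x = E) (hn : 0 < n) (h0 : 0 < x) (h1 : x < 1) :
    2 * x * n ≤ E := by
  have h := LL_lower h0 h1
  rw [← hE]
  have h3 : 0 ≤ 2 * x ^ 3 / 3 + 2 * x ^ 5 / 5 := by positivity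
  nlinarith

/-- first approximant -/
lemma first_bounds (hE : n * LL x = E) (hn : 0 < n) (h0 : 0 < x) (h1 : x < 1) :
    E * x ^ 2 * (1 - x ^ 2) / 3 ≤ E - 2 * n * x ∧
      E - 2 * n * x ≤ E * x ^ 2 / (3 * (1 - x ^ 2)) := by
  have hx2 : 0 < 1 - x ^ 2 := by nlinarith
  have hE0 : 0 < E := by rw [← hE]; exact mul_pos hn (LL_pos h0 h1)
  constructor
  · have h := LL_lower h0 h1
    have h2 := n_lower hE hn h0 h1
    have h3 : n * (2 * x ^ 3 / 3) ≤ E - 2 * n * x := by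
      rw [← hE]
      have h4 : 0 ≤ 2 * x ^ 5 / 5 := by positivity
      nlinarith
    have h5 : E * x ^ 2 * (1 - x ^ 2) / 3 ≤ n * (2 * x ^ 3 / 3) := by
      nlinarith [mul_le_mul_of_nonneg_right h2 (sq_nonneg x)]
    linarith
  · have h := LL_upper1 h0 h1
    have h2 := n_upper hE hn h0 h1
    have h3 : E - 2 * n * x ≤ n * (2 * x ^ 3 / (3 * (1 - x ^ 2))) := by
      rw [← hE]
      nlinarith
    refine h3.trans ?_
    rw [mul_div_assoc', div_le_div_iff_of_pos_right (by positivity)]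
    nlinarith [mul_le_mul_of_nonneg_right h2 (sq_nonneg x)]

/-- second approximant -/
lemma second_bounds (hE : n * LL x = E) (hn : 0 < n) (h0 : 0 < x) (h1 : x ≤ 1 / 2) :
    E * x ^ 4 * ((1 - x ^ 2) * (4 / 15 - x ^ 2 / 5)) ≤ (3 - x ^ 2) * E - 6 * n * x ∧
      (3 - x ^ 2) * E - 6 * n * x ≤ E * x ^ 4 * ((4 + 2 * x ^ 2) / (15 * (1 - x ^ 2))) := by
  have h1' : x < 1 := by linarith
  have hx2 : 0 < 1 - x ^ 2 := by nlinarith
  have hx3 : 0 < 3 - x ^ 2 := by linarith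
  have hE0 : 0 < E := by rw [← hE]; exact mul_pos hn (LL_pos h0 h1')
  constructor
  · have h := LL_lower h0 h1'
    have h2 := n_lower hE hn h0 h1'
    have h3 : n * (x ^ 5 * (8 / 15 - 2 * x ^ 2 / 5)) ≤ (3 - x ^ 2) * E - 6 * n * x := by
      rw [← hE]
      have h4 := mul_le_mul_of_nonneg_left h (mul_nonneg hn.le hx3.le)
      nlinarith
    refine le_trans ?_ h3
    have h5 : 0 ≤ x ^ 4 * (4 / 15 - x ^ 2 / 5) := by
      apply mul_nonneg (by positivity)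
      nlinarith
    nlinarith [mul_le_mul_of_nonneg_right h2 h5]
  · have h := LL_upper h0 h1'
    have h2 := n_upper hE hn h0 h1'
    have h3 : (3 - x ^ 2) * E - 6 * n * x ≤
        n * (x ^ 5 * ((8 + 4 * x ^ 2) / (15 * (1 - x ^ 2)))) := by
      rw [← hE]
      have h4 := mul_le_mul_of_nonneg_left h (mul_nonneg hn.le hx3.le)
      have h5 : n * (3 - x ^ 2) * (2 * x + 2 * x ^ 3 / 3 + 2 * x ^ 5 / (5 * (1 - x ^ 2))) =
          6 * n * x + n * (x ^ 5 * ((8 + 4 * x ^ 2) / (15 * (1 - x ^ 2)))) := by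
        field_simp
        ring
      rw [h5] at h4
      linarith
    refine h3.trans ?_
    have h6 : 0 ≤ x ^ 4 * ((4 + 2 * x ^ 2) / (15 * (1 - x ^ 2))) := by positivity
    have h7 : n * (x ^ 5 * ((8 + 4 * x ^ 2) / (15 * (1 - x ^ 2)))) =
        (2 * x * n) * (x ^ 4 * ((4 + 2 * x ^ 2) / (15 * (1 - x ^ 2)))) := by
      field_simp
      ring
    rw [h7, mul_assoc E]
    exact mul_le_mul_of_nonneg_right h2 h6

end

end Pool.Agent.H13.EE
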