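import Mathlib

/-!
# Small real inequalities
-/

set_option autoImplicit false

namespace Pool.Agent.H13.EE

lemma int_of_neg {v : ℤ} {x : ℝ} (hv : (v : ℝ) = x) (hx : x < 0) : v ≤ -1 := by
  have h1 : (v : ℝ) < 0 := by rw [hv]; exact hx
  have h2 : v < 0 := by exact_mod_cast h1
  omega

lemma int_of_pos {v : ℤ} {x : ℝ} (hv : (v : ℝ) = x) (hx : 0 < x) : 1 ≤ v := by
  have h1 : (0 : ℝ) < v := by rw [hv]; exact hx
  have h2 : 0 < v := by exact_mod_cast h1
  omega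

lemma int_lt {v : ℤ} {x : ℝ} {c : ℤ} (hv : (v : ℝ) = x) (hx : x < c) : v < c := by
  have h1 : (v : ℝ) < c := by rw [hv]; exact hx
  exact_mod_cast h1

/-- even index, `N` between `0.8` and `1.02` -/
lemma ev_one {A B A' B' N : ℝ} {u v : ℤ} (hA : 0 < A) (hB : 0 < B) (hA' : 0 < A')
    (hB' : 0 < B') (hB'l : 1 / 2 ≤ B') (hAl : 1 / 2 ≤ A)
    (hAB : A * B' + A' * B = 2 * N) (h10 : 10 * A' ≤ A) (h14 : 14 * B ≤ B') (hN1 : 0.8 ≤ N)
    (hN2 : N ≤ 1.02) (hu : (u : ℝ) = A + B) (hv : (v : ℝ) = A' - B') (ou : Odd u)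
    (ov : Odd v) (hu1 : 1 ≤ u) : False := by
  have p1 : 0 < A' * B := mul_pos hA' hB
  have p2 : A * B' ≤ 2.04 := by linarith
  have p3 : A ≤ 4.08 := by
    have := mul_le_mul_of_nonneg_left hB'l hA.le
    linarith
  have hv1 : v ≤ -1 := int_of_neg hv (by linarith)
  have hv1' : (v : ℝ) ≤ -1 := by exact_mod_cast hv1
  have hB1 : 1 ≤ B' := by linarith
  have p4 : A ≤ 2.04 := by
    have := mul_le_mul_of_nonneg_left hB1 hA.le
    linarith
  have p5 : B' ≤ 4.08 := by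
    have := mul_le_mul_of_nonneg_right hAl hB'.le
    linarith
  have hu3 : u < 3 := int_lt (c := 3) hu (by norm_num; linarith)
  obtain ⟨u', hu2⟩ := ou
  obtain ⟨v', hv2⟩ := ov
  have hu4 : u = 1 := by omega
  have hu5 : A + B = 1 := by rw [← hu, hu4]; simp
  by_cases hv3 : v = -1
  · have hv4 : A' - B' = -1 := by rw [← hv, hv3]; simp
    have h6 : A ≤ 1 := by linarith
    have h7 : A' ≤ 0.1 := by linarith
    have h8 : B' ≤ 1.1 := by linarith
    have h9 : A * B' ≤ 1 * 1.1 := mul_le_mul h6 h8 hB'.le (by norm_num)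
    have h10 : B ≤ 0.1 := by linarith
    have h11 : A' * B ≤ 0.1 * 0.1 := mul_le_mul h7 h10 hB.le (by norm_num)
    linarith
  · have hv4 : v ≤ -3 := by omega
    have hv5 : (v : ℝ) ≤ -3 := by exact_mod_cast hv4
    have h6 : 3 ≤ B' := by linarith
    have h7 : A ≤ 0.68 := by
      have := mul_le_mul_of_nonneg_left h6 hA.le
      linarith
    have h8 : 0.32 ≤ B := by linarith
    have h9 : 4.48 ≤ B' := by linarith
    have := mul_le_mul hAl h9 (by norm_num) hA.le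
    linarith

/-- odd index, `N` between `0.8` and `1.02` -/
lemma od_one {A B A' B' N κ : ℝ} {u v : ℤ} (hA : 0 < A) (hB : 0 < B) (hA' : 0 < A')
    (hB' : 0 < B') (hB'l : 1 / 2 ≤ B')
    (hAB : A * B' + A' * B = 2 * N) (h6 : 6 ≤ κ) (hκ : κ * A' ≤ A) (hB10 : 10 * B ≤ B')
    (hN1 : 0.8 ≤ N) (hN2 : N ≤ 1.02) (hu : (u : ℝ) = A - B) (hv : (v : ℝ) = A' + B')
    (ou : Odd u) (ov : Odd v) (hu1 : 1 ≤ u) : u = 3 ∧ v = 1 ∧ κ < 14 := by
  have p1 : 0 < A' * B := mul_pos hA' hB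
  have p2 : A * B' ≤ 2.04 := by linarith
  have p3 : A ≤ 4.08 := by
    have := mul_le_mul_of_nonneg_left hB'l hA.le
    linarith
  have hA6 : 6 * A' ≤ A := by
    have := mul_le_mul_of_nonneg_right h6 hA'.le
    linarith
  have hv1 : 1 ≤ v := int_of_pos hv (by linarith)
  have hu1' : (1 : ℝ) ≤ u := by exact_mod_cast hu1
  have hA1 : 1 ≤ A := by linarith
  have hu5 : u < 5 := int_lt (c := 5) hu (by norm_num; linarith)
  obtain ⟨u', hu2⟩ := ou
  obtain ⟨v', hv2⟩ := ov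
  have hv3 : v = 1 := by
    by_contra hv3
    have hv4 : 3 ≤ v := by omega
    have hv5 : (3 : ℝ) ≤ v := by exact_mod_cast hv4
    have h2 : 2.32 ≤ B' := by linarith
    have h3 := mul_le_mul hA1 h2 (by norm_num) hA.le
    linarith
  have hv6 : A' + B' = 1 := by rw [← hv, hv3]; simp
  have hu6 : u = 1 ∨ u = 3 := by omega
  rcases hu6 with hu6 | hu6
  · exfalso
    have h1 : A - B = 1 := by rw [← hu, hu6]; simp
    have h2 : B' ≤ 1 := by linarith
    have h3 : B ≤ 0.1 := by linarith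
    have h4 : A ≤ 1.1 := by linarith
    have h5 : A' ≤ 0.2 := by linarith
    have h7 : A * B' ≤ 1.1 * 1 := mul_le_mul h4 h2 hB'.le (by norm_num)
    have h8 : A' * B ≤ 0.2 * 0.1 := mul_le_mul h5 h3 hB.le (by norm_num)
    linarith
  · refine ⟨hu6, hv3, ?_⟩
    by_contra hcon
    push Not at hcon
    have h1 : A - B = 3 := by rw [← hu, hu6]; simp
    have h2 : 14 * A' ≤ A := by
      have := mul_le_mul_of_nonneg_right hcon hA'.le
      linarith
    have h3 : A' ≤ 0.3 := by linarith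
    have h4 : 0.7 ≤ B' := by linarith
    have h5 : 3 ≤ A := by linarith
    have h6 := mul_le_mul h5 h4 (by norm_num) hA.le
    linarith

/-- even index, small `N` -/
lemma ev_small {A B A' B' N : ℝ} {u v : ℤ} (hA : 0 < A) (hB : 0 < B) (hA' : 0 < A')
    (hB' : 0 < B') (hAl : 1 / 2 ≤ A)
    (hAB : A * B' + A' * B = 2 * N) (h10 : 10 * B ≤ B')
    (hN2 : N ≤ 0.31) (hu : (u : ℝ) = A + B) (hu1 : 1 ≤ u) (hAv : A' < B')
    (hv : (v : ℝ) = A' - B') : False := by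
  have p1 : 0 < A' * B := mul_pos hA' hB
  have p2 : A * B' ≤ 0.62 := by linarith
  have hv1 : v ≤ -1 := int_of_neg hv (by linarith)
  have hv1' : (v : ℝ) ≤ -1 := by exact_mod_cast hv1
  have hu1' : (1 : ℝ) ≤ u := by exact_mod_cast hu1
  have hB1 : 1 ≤ B' := by linarith
  have h7 : B' ≤ 1.24 := by
    have := mul_le_mul_of_nonneg_right hAl hB'.le
    linarith
  have h8 : B ≤ 0.124 := by linarith
  have h9 : 0.8 ≤ A := by linarith
  have := mul_le_mul h9 hB1 (by norm_num) hA.le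
  linarith

/-- odd index, small `N` -/
lemma od_small {A B A' B' N : ℝ} {u v : ℤ} (hA : 0 < A) (hB : 0 < B) (hA' : 0 < A')
    (hB' : 0 < B') (hB'l : 1 / 2 ≤ B')
    (hAB : A * B' + A' * B = 2 * N) (h6 : 6 * A' ≤ A)
    (hN2 : N ≤ 0.31) (hu : (u : ℝ) = A - B) (hu1 : 1 ≤ u)
    (hv : (v : ℝ) = A' + B') : False := by
  have p1 : 0 < A' * B := mul_pos hA' hB
  have p2 : A * B' ≤ 0.62 := by linarith
  have hv1 : 1 ≤ v := int_of_pos hv (by linarith)
  have hv1' : (1 : ℝ) ≤ v := by exact_mod_cast hv1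
  have hu1' : (1 : ℝ) ≤ u := by exact_mod_cast hu1
  have hA1 : 1 ≤ A := by linarith
  have p3 : A ≤ 1.24 := by
    have := mul_le_mul_of_nonneg_left hB'l hA.le
    linarith
  have h7 : A' ≤ 0.21 := by linarith
  have h8 : 0.79 ≤ B' := by linarith
  have := mul_le_mul hA1 h8 (by norm_num) hA.le
  linarith

/-- the last case: `N ≤ 3.27`, lower bounds for `u` and `v` -/
lemma od_large {A B A' B' N : ℝ} {u v : ℤ} (hA : 0 < A) (hB : 0 < B) (hA' : 0 < A')
    (hB'l : 1 / 2 ≤ B')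
    (hAB : A * B' + A' * B = 2 * N) (h6 : 6 * A' ≤ A)
    (hN2 : N ≤ 3.27) (hu : (u : ℝ) = A - B) (hu1 : 5 ≤ u)
    (hv : (v : ℝ) = A' + B') (hv1 : 5 ≤ v) : False := by
  have p1 : 0 < A' * B := mul_pos hA' hB
  have p2 : A * B' ≤ 6.54 := by linarith
  have hv1' : (5 : ℝ) ≤ v := by exact_mod_cast hv1
  have hu1' : (5 : ℝ) ≤ u := by exact_mod_cast hu1
  have hA1 : 5 ≤ A := by linarith
  have p3 : A ≤ 13.08 := by
    have := mul_le_mul_of_nonneg_left hB'l hA.le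
    linarith
  have h7 : A' ≤ 2.18 := by linarith
  have h8 : 2.82 ≤ B' := by linarith
  have := mul_le_mul hA1 h8 (by norm_num) hA.le
  linarith

lemma ev_large {A B A' B' N : ℝ} {u v : ℤ} (hA : 0 < A) (hB : 0 < B) (hA' : 0 < A')
    (hBl : B < 1 / 2)
    (hAB : A * B' + A' * B = 2 * N)
    (hN2 : N ≤ 3.27) (hu : (u : ℝ) = A + B) (hu1 : 7 ≤ u)
    (hv : (v : ℝ) = A' - B') (hv1 : v ≤ -3) : False := by
  have p1 : 0 < A' * B := mul_pos hA' hB
  have p2 : A * B' ≤ 6.54 := by linarith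
  have hv1' : (v : ℝ) ≤ -3 := by exact_mod_cast hv1
  have hu1' : (7 : ℝ) ≤ u := by exact_mod_cast hu1
  have hA1 : 6.5 ≤ A := by linarith
  have h8 : 3 ≤ B' := by linarith
  have := mul_le_mul hA1 h8 (by norm_num) hA.le
  linarith

lemma ev_mid {A B A' B' N : ℝ} {u v : ℤ} (hA : 0 < A) (hB : 0 < B) (hA' : 0 < A')
    (hBl : B < 1 / 2) (hB22 : 22 * B ≤ B')
    (hAB : A * B' + A' * B = 2 * N)
    (hN2 : N ≤ 2.4) (hu : (u : ℝ) = A + B) (hu1 : 5 ≤ u)
    (hv : (v : ℝ) = A' - B') (hv1 : v ≤ -1) : False := by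
  have p1 : 0 < A' * B := mul_pos hA' hB
  have p2 : A * B' ≤ 4.8 := by linarith
  have hv1' : (v : ℝ) ≤ -1 := by exact_mod_cast hv1
  have hu1' : (5 : ℝ) ≤ u := by exact_mod_cast hu1
  have hA1 : 4.5 ≤ A := by linarith
  have h8 : 1 ≤ B' := by linarith
  have h9 : B' ≤ 1.1 := by
    have : 4.5 * B' ≤ A * B' := mul_le_mul_of_nonneg_right hA1 (by linarith)
    linarith
  have h10 : B ≤ 0.05 := by linarith
  have h11 : 4.95 ≤ A := by linarith
  have := mul_le_mul h11 h8 (by norm_num) hA.le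
  linarith

end Pool.Agent.H13.EE
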