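import Pool.Agent.H13.EE.Lattice
import Pool.Agent.H13.EE.Logs
import Pool.Agent.H13.EE.OneAux

/-!
# `e` is not `n log ((s + 1) / (s - 1))`
-/

set_option autoImplicit false

namespace Pool.Agent.H13.EE

open Real

lemma exp_one_bounds : (2.7182 : ℝ) < exp 1 ∧ exp 1 < 2.7183 :=
  ⟨lt_trans (by norm_num) Real.exp_one_gt_d9, lt_trans Real.exp_one_lt_d9 (by norm_num)⟩

lemma up_aux {y E c : ℝ} (hE : E < 2.7183) (hy : y ≤ c) (hc : c < 1) :
    E / (3 * (1 - y)) ≤ 2.7183 / (3 * (1 - c)) := by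
  apply div_le_div₀ (by norm_num) hE.le (by linarith) (by linarith)

/-- size of `N` for the first approximant -/
lemma first_size {s n : ℕ} (hs : 2 ≤ s) (hn : 1 ≤ n) (hE : (n : ℝ) * LL (1 / s) = exp 1)
    {q p : ℤ} {j : ℕ} (hq : (s : ℤ) = 2 ^ j * q) (hp : (2 * n : ℤ) = 2 ^ j * p) :
    exp 1 * (1 - (1 / (s : ℝ)) ^ 2) / 3 ≤ 4 ^ j * (q * (q * exp 1 - p)) ∧
    4 ^ j * (q * (q * exp 1 - p)) ≤ exp 1 / (3 * (1 - (1 / (s : ℝ)) ^ 2)) := by
  have hs' : (2 : ℝ) ≤ s := by exact_mod_cast hs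
  have hn' : (0 : ℝ) < n := by exact_mod_cast hn
  have hx0 : (0 : ℝ) < 1 / s := by positivity
  have hx1 : (1 : ℝ) / s ≤ 1 / 2 := one_div_le_one_div_of_le (by norm_num) hs'
  obtain ⟨hb1, hb2⟩ := first_bounds hE hn' hx0 (by linarith)
  have hq' : (s : ℝ) = 2 ^ j * q := by exact_mod_cast hq
  have hp' : (2 * n : ℝ) = 2 ^ j * p := by exact_mod_cast hp
  have hs0 : (s : ℝ) ≠ 0 := by linarith
  have hNs : (4 : ℝ) ^ j * (q * (q * exp 1 - p)) = s ^ 2 * (exp 1 - 2 * n * (1 / s)) := by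
    have e1 : (4 : ℝ) ^ j = 2 ^ j * 2 ^ j := by
      rw [← mul_pow]; norm_num
    have e2 : (s : ℝ) ^ 2 * (exp 1 - 2 * n * (1 / s)) = s * (s * exp 1 - 2 * n) := by
      field_simp
    rw [e1, e2, hp']
    conv_rhs => rw [hq']
    ring
  have hx2 : (1 / (s : ℝ)) ^ 2 * s ^ 2 = 1 := by
    field_simp
  rw [hNs]
  have hx3 : (1 / (s : ℝ)) ^ 2 ≤ 1 / 4 := by
    have := mul_le_mul hx1 hx1 hx0.le (by norm_num)
    rw [sq]
    linarith
  set y : ℝ := (1 / (s : ℝ)) ^ 2 with hy
  constructor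
  · have := mul_le_mul_of_nonneg_left hb1 (sq_nonneg (s : ℝ))
    have e : (s : ℝ) ^ 2 * (exp 1 * y * (1 - y) / 3) = exp 1 * (1 - y) / 3 := by
      linear_combination (exp 1 * (1 - y) / 3) * hx2
    linarith
  · have := mul_le_mul_of_nonneg_left hb2 (sq_nonneg (s : ℝ))
    have h1y : (1 - y) ≠ 0 := by linarith
    have e : (s : ℝ) ^ 2 * (exp 1 * y / (3 * (1 - y))) = exp 1 / (3 * (1 - y)) := by
      field_simp
      linear_combination hx2
    linarith

lemma inv_sq_le {s : ℕ} {c : ℝ} (hc : 0 < c) (h : c ≤ s) : (1 / (s : ℝ)) ^ 2 ≤ 1 / c ^ 2 := by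
  rw [div_pow, one_pow]
  exact one_div_le_one_div_of_le (by positivity) (pow_le_pow_left₀ hc.le h 2)

/-- `2 ^ j q = s`, `2 ^ j p = 2 n` with `q + p` odd -/
lemma caseA {s n : ℕ} (hs : 2 ≤ s) (hn : 1 ≤ n) (hE : (n : ℝ) * LL (1 / s) = exp 1)
    {q p : ℤ} {j : ℕ} (hq : (s : ℤ) = 2 ^ j * q) (hp : (2 * n : ℤ) = 2 ^ j * p)
    (hodd : Odd (q + p)) : False := by
  obtain ⟨he1, he2⟩ := exp_one_bounds
  have hs' : (2 : ℝ) ≤ s := by exact_mod_cast hs
  obtain ⟨hNlow, hNup⟩ := first_size hs hn hE hq hp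
  have hq1 : 1 ≤ q := by
    by_contra hcon
    have h1 : q ≤ 0 := by omega
    have h2 : (0 : ℤ) < 2 ^ j := by positivity
    have h3 : (2 : ℤ) ^ j * q ≤ 0 := mul_nonpos_of_nonneg_of_nonpos h2.le h1
    have h4 : (2 : ℤ) ≤ s := by exact_mod_cast hs
    linarith
  have hy1 : (1 / (s : ℝ)) ^ 2 ≤ 1 / 4 := by
    have := inv_sq_le (by norm_num) hs'
    norm_num at this ⊢
    linarith
  have h4j : (1 : ℝ) ≤ 4 ^ j := one_le_pow₀ (by norm_num)
  have hqpos : (0 : ℝ) < q := by
    have : (0 : ℤ) < q := by omega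
    exact_mod_cast this
  have hlow0 : 0 < exp 1 * (1 - (1 / (s : ℝ)) ^ 2) / 3 := by
    apply div_pos _ (by norm_num)
    exact mul_pos (Real.exp_pos 1) (by linarith)
  have hNpos : 0 < (q : ℝ) * (q * exp 1 - p) := by
    by_contra hcon
    push Not at hcon
    have := mul_nonpos_of_nonneg_of_nonpos (show (0 : ℝ) ≤ 4 ^ j by positivity) hcon
    linarith
  have hη : 0 < (q : ℝ) * exp 1 - p := by
    by_contra hcon
    push Not at hcon
    have := mul_nonpos_of_nonneg_of_nonpos hqpos.le hcon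
    linarith
  obtain ⟨k, A, B, A', B', u, v, h⟩ := exists_lat q p hq1 hodd hη
  have hk0' : k = 0 → q = 1 := by
    intro hk0
    have h1 := h.hB1
    have h3 := h.B_lt
    rw [hk0, zero_add, del_one] at h1
    have h2 : (q : ℝ) < 2 := by
      by_contra hq2
      push Not at hq2
      have := mul_le_mul_of_nonneg_right hq2 (show (0 : ℝ) ≤ 3 - exp 1 by linarith)
      linarith
    have : q < 2 := by exact_mod_cast h2
    omega
  have hAB := h.hN
  have hBB := h.hB
  have hu := h.hu'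
  have hv := h.hv'
  generalize hNN : (q : ℝ) * (q * exp 1 - p) = N at *
  rcases Nat.eq_zero_or_pos j with hj | hj
  · -- `j = 0`
    subst hj
    simp only [pow_zero, one_mul] at hq hp hNlow hNup
    have hsodd : s % 2 = 1 := by
      obtain ⟨c, hc⟩ := hodd
      omega
    have hs3 : 3 ≤ s := by omega
    have hs3' : (3 : ℝ) ≤ s := by exact_mod_cast hs3
    have hy9 : (1 / (s : ℝ)) ^ 2 ≤ 1 / 9 := by
      have := inv_sq_le (by norm_num) hs3'
      norm_num at this ⊢
      linarith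
    have hN1 : 0.8 ≤ N := by
      refine le_trans ?_ hNlow
      have := mul_le_mul he1.le (show 8 / 9 ≤ 1 - (1 / (s : ℝ)) ^ 2 by linarith) (by norm_num)
        (Real.exp_pos 1).le
      linarith
    have hN2 : N ≤ 1.02 := by
      refine hNup.trans ((up_aux he2 hy9 (by norm_num)).trans (by norm_num))
    have hk1 : 1 ≤ k := by
      by_contra hcon
      have := hk0' (by omega)
      omega
    have hk1' : (1 : ℝ) ≤ k := by exact_mod_cast hk1
    have hAA := h.hA2 hk1
    rcases Nat.even_or_odd k with hk | hk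
    · -- `k` even: `k ≥ 2`
      rw [hk.neg_one_pow, one_mul] at hu hv
      have hk2 : (2 : ℝ) ≤ k := by
        obtain ⟨c, hc⟩ := hk
        have : 2 ≤ k := by omega
        exact_mod_cast this
      have h10 : 10 * A' ≤ A := by
        have := mul_le_mul_of_nonneg_right (show (10 : ℝ) ≤ 4 * k + 2 by linarith) h.A'_pos.le
        linarith
      have h14 : 14 * B ≤ B' := by
        have := mul_le_mul_of_nonneg_right (show (14 : ℝ) ≤ 4 * k + 6 by linarith) h.B_pos.le
        linarith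
      exact ev_one h.A_pos h.B_pos h.A'_pos h.B'_pos h.le_B' h.half_le_A hAB h10 h14 hN1 hN2 hu
        hv h.u_odd h.v_odd h.u_pos
    · -- `k` odd
      rw [hk.neg_one_pow] at hu hv
      have h10 : 10 * B ≤ B' := by
        have := mul_le_mul_of_nonneg_right (show (10 : ℝ) ≤ 4 * k + 6 by linarith) h.B_pos.le
        linarith
      obtain ⟨hu3, hv1, hκ⟩ := od_one h.A_pos h.B_pos h.A'_pos h.B'_pos h.le_B' hAB
        (show (6 : ℝ) ≤ 4 * k + 2 by linarith) hAA h10 hN1 hN2 (by rw [hu]; ring)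
        (by rw [hv]; ring) h.u_odd h.v_odd h.u_pos
      have hk3 : k = 1 := by
        have h1 : (k : ℝ) < 3 := by linarith
        have h2 : k < 3 := by exact_mod_cast h1
        obtain ⟨c, hc⟩ := hk
        omega
      have e1 := h.hu
      have e2 := h.hv
      rw [hk3, hu3] at e1
      rw [hk3, hv1] at e2
      have f1 : Pk (1 + 1) = 19 := rfl
      have f2 : Qk (1 + 1) = 7 := rfl
      have f3 : Pk 1 = 3 := rfl
      have f4 : Qk 1 = 1 := rfl
      rw [f1, f2] at e1
      rw [f3, f4] at e2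
      omega
  · -- `j ≥ 1`
    have h4j' : (4 : ℝ) ≤ 4 ^ j := by
      calc (4 : ℝ) = 4 ^ 1 := by norm_num
        _ ≤ 4 ^ j := pow_le_pow_right₀ (by norm_num) hj
    have hN2 : N ≤ 0.31 := by
      have h1 : exp 1 / (3 * (1 - (1 / (s : ℝ)) ^ 2)) ≤ 1.21 :=
        (up_aux he2 hy1 (by norm_num)).trans (by norm_num)
      have := mul_le_mul_of_nonneg_right h4j' hNpos.le
      linarith
    have hk1 : 1 ≤ k := by
      by_contra hcon
      have h3 : q = 1 := hk0' (by omega)
      have h4 : N = exp 1 - p := by rw [← hNN, h3]; simp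
      have h5 : (p : ℝ) < 3 := by linarith
      have h6 : (2 : ℝ) < p := by linarith
      have h7 : p < 3 := by exact_mod_cast h5
      have h8 : 2 < p := by exact_mod_cast h6
      omega
    have hk1' : (1 : ℝ) ≤ k := by exact_mod_cast hk1
    have hAA := h.hA2 hk1
    have h6 : 6 * A' ≤ A := by
      have := mul_le_mul_of_nonneg_right (show (6 : ℝ) ≤ 4 * k + 2 by linarith) h.A'_pos.le
      linarith
    have h10 : 10 * B ≤ B' := by
      have := mul_le_mul_of_nonneg_right (show (10 : ℝ) ≤ 4 * k + 6 by linarith) h.B_pos.le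
      linarith
    rcases Nat.even_or_odd k with hk | hk
    · rw [hk.neg_one_pow, one_mul] at hu hv
      have hAB' : A' < B' := by
        have h1 := mul_le_mul_of_nonneg_left h.le_B' h.A_pos.le
        have h2 := mul_pos h.A'_pos h.B_pos
        have h3 := h.le_B'
        linarith
      exact ev_small h.A_pos h.B_pos h.A'_pos h.B'_pos h.half_le_A hAB h10 hN2 hu h.u_pos hAB' hv
    · rw [hk.neg_one_pow] at hu hv
      exact od_small h.A_pos h.B_pos h.A'_pos h.B'_pos h.le_B' hAB h6 hN2 (by rw [hu]; ring)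
        h.u_pos (by rw [hv]; ring)

end Pool.Agent.H13.EE
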