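import Pool.Agent.H13.EE.LargeAux
import Pool.Agent.H13.EE.One

/-!
# `e` is not `n log ((s + m) / (s - m))` when `s` is very large compared to `m`
-/

set_option autoImplicit false

namespace Pool.Agent.H13.EE

open Real

lemma large_s {m s : ℕ} (hm : 1 ≤ m)
    (hK : (4 * (40000 * m ^ 12) + 3) ^ (40000 * m ^ 12) ≤ s) : 160000 * m ^ 12 ≤ s := by
  have h1 : 1 ≤ m ^ 12 := Nat.one_le_pow _ _ hm
  have h2 : (4 * (40000 * m ^ 12) + 3) ^ 1 ≤ (4 * (40000 * m ^ 12) + 3) ^ (40000 * m ^ 12) :=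
    Nat.pow_le_pow_right (by omega) (by omega)
  rw [pow_one] at h2
  omega

lemma large_x {m s : ℕ} (hm : 1 ≤ m) (h : 160000 * m ^ 12 ≤ s) :
    ((m : ℝ) / s) ^ 2 * ((m : ℝ) ^ 2) ^ 4 ≤ 1 / 1000000 := by
  have hm' : (1 : ℝ) ≤ m := by exact_mod_cast hm
  have h' : (160000 : ℝ) * m ^ 12 ≤ s := by exact_mod_cast h
  have hm0 : (0 : ℝ) < m := by linarith
  have hs0 : (0 : ℝ) < s := lt_of_lt_of_le (by positivity) h'
  have h2 : ((160000 : ℝ) * m ^ 12) ^ 2 ≤ (s : ℝ) ^ 2 := pow_le_pow_left₀ (by positivity) h' 2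
  have h3 : ((m : ℝ) / s) ^ 2 * ((m : ℝ) ^ 2) ^ 4 = (m : ℝ) ^ 10 / s ^ 2 := by
    field_simp
  rw [h3, div_le_div_iff₀ (by positivity) (by norm_num), one_mul]
  have h4 : (m : ℝ) ^ 10 ≤ (m : ℝ) ^ 24 := pow_le_pow_right₀ hm' (by norm_num)
  nlinarith

/-- the odd case -/
lemma large_odd {m s n : ℕ} (hm : 1 ≤ m) (hms : m < s) (hn : 1 ≤ n) (hs : Odd s)
    (hK : (4 * (40000 * m ^ 12) + 3) ^ (40000 * m ^ 12) ≤ s)
    (hE : (n : ℝ) * LL (m / s) = exp 1) : False := by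
  obtain ⟨he1, he2⟩ := exp_one_bounds
  have hm' : (1 : ℝ) ≤ m := by exact_mod_cast hm
  have hms' : (m : ℝ) < s := by exact_mod_cast hms
  have hs0 : (0 : ℝ) < s := by linarith
  have hn' : (0 : ℝ) < n := by exact_mod_cast hn
  have hx0 : (0 : ℝ) < m / s := by positivity
  have hx1 : (m : ℝ) / s < 1 := by rw [div_lt_one hs0]; exact hms'
  obtain ⟨hb1, hb2⟩ := first_bounds hE hn' hx0 hx1
  have hxs := large_x hm (large_s hm hK)
  have hM : (1 : ℝ) ≤ (m : ℝ) ^ 2 := one_le_pow₀ hm'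
  have hNs : ((s : ℤ) : ℝ) * (((s : ℤ) : ℝ) * exp 1 - ((2 * n * m : ℤ) : ℝ)) =
      s ^ 2 * (exp 1 - 2 * n * (m / s)) := by
    push_cast
    field_simp
  have hx2 : ((m : ℝ) / s) ^ 2 * s ^ 2 = m ^ 2 := by
    field_simp
  have h1y : 1 - ((m : ℝ) / s) ^ 2 ≠ 0 := by
    have : ((m : ℝ) / s) ^ 2 < 1 := by
      rw [sq_lt_one_iff₀ hx0.le]
      exact hx1
    linarith
  have hlow : exp 1 * (m : ℝ) ^ 2 * (1 - ((m : ℝ) / s) ^ 2) / 3 ≤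
      ((s : ℤ) : ℝ) * (((s : ℤ) : ℝ) * exp 1 - ((2 * n * m : ℤ) : ℝ)) := by
    rw [hNs]
    have := mul_le_mul_of_nonneg_left hb1 (sq_nonneg (s : ℝ))
    refine le_trans (le_of_eq ?_) this
    linear_combination (-(exp 1 * (1 - ((m : ℝ) / s) ^ 2) / 3)) * hx2
  have hup : ((s : ℤ) : ℝ) * (((s : ℤ) : ℝ) * exp 1 - ((2 * n * m : ℤ) : ℝ)) ≤
      exp 1 * (m : ℝ) ^ 2 / (3 * (1 - ((m : ℝ) / s) ^ 2)) := by
    rw [hNs]
    have := mul_le_mul_of_nonneg_left hb2 (sq_nonneg (s : ℝ))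
    refine le_trans this (le_of_eq ?_)
    rw [mul_div_assoc']
    congr 1
    linear_combination (exp 1) * hx2
  have hlow0 : 0 < exp 1 * (m : ℝ) ^ 2 * (1 - ((m : ℝ) / s) ^ 2) / 3 := by
    have h1 : ((m : ℝ) / s) ^ 2 < 1 := by
      rw [sq_lt_one_iff₀ hx0.le]
      exact hx1
    have h2 : 0 < 1 - ((m : ℝ) / s) ^ 2 := by linarith
    have h3 := Real.exp_pos 1
    positivity
  have hη : 0 < ((s : ℤ) : ℝ) * exp 1 - ((2 * n * m : ℤ) : ℝ) := by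
    by_contra hcon
    push Not at hcon
    have hs00 : (0 : ℝ) ≤ ((s : ℤ) : ℝ) := by
      push_cast
      exact hs0.le
    have := mul_nonpos_of_nonneg_of_nonpos hs00 hcon
    linarith
  have hq1 : (1 : ℤ) ≤ s := by
    have : 1 ≤ s := by omega
    exact_mod_cast this
  have hodd : Odd ((s : ℤ) + 2 * n * m) := by
    obtain ⟨c, hc⟩ := hs
    refine ⟨c + n * m, ?_⟩
    rw [hc]
    push_cast
    ring
  obtain ⟨k, A, B, A', B', u, v, h⟩ := exists_lat s (2 * n * m) hq1 hodd hη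
  have hkK : 40000 * m ^ 12 ≤ k := by
    apply index_large (q := s)
    · have := h.B_lt
      rw [h.hB1] at this
      exact this
    · exact_mod_cast hK
  have hm12 : 1 ≤ m ^ 12 := Nat.one_le_pow _ _ hm
  obtain ⟨o, ho, ho2⟩ := close_odd h (by omega)
  have hd := dist_mixed (2 * (m : ℤ) ^ 2) (3 * o) (by
    have : (1 : ℤ) ≤ (m : ℤ) ^ 2 := by
      have := Nat.one_le_pow 2 m hm
      exact_mod_cast this
    linarith) (by
    obtain ⟨c, hc⟩ := ho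
    refine ⟨m ^ 2 + 3 * c + 1, ?_⟩
    rw [hc]
    ring)
  refine large_odd_real (E := exp 1) (M := (m : ℝ) ^ 2) (y := ((m : ℝ) / s) ^ 2) (k := k)
    (N := ((s : ℤ) : ℝ) * (((s : ℤ) : ℝ) * exp 1 - ((2 * n * m : ℤ) : ℝ))) (o := o)
    he2 he1 hM (sq_nonneg _) hxs ?_ hlow hup ho2 ?_
  · have : ((m : ℝ) ^ 2) ^ 6 = m ^ 12 := by ring
    rw [this]
    exact_mod_cast hkK
  · push_cast at hd
    exact hd

/-- the even case -/
lemma large_even {m s n : ℕ} (hm : 1 ≤ m) (hms : m < s) (hn : 1 ≤ n) (hs : Even s) (hmo : Odd m)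
    (hK : (4 * (40000 * m ^ 12) + 3) ^ (40000 * m ^ 12) ≤ s)
    (hE : (n : ℝ) * LL (m / s) = exp 1) : False := by
  obtain ⟨he1, he2⟩ := exp_one_bounds
  have hm' : (1 : ℝ) ≤ m := by exact_mod_cast hm
  have hms' : (m : ℝ) < s := by exact_mod_cast hms
  have hs0 : (0 : ℝ) < s := by linarith
  have hn' : (0 : ℝ) < n := by exact_mod_cast hn
  have hx0 : (0 : ℝ) < m / s := by positivity
  have hxs := large_x hm (large_s hm hK)
  have hM : (1 : ℝ) ≤ (m : ℝ) ^ 2 := one_le_pow₀ hm'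
  have hy1 : ((m : ℝ) / s) ^ 2 ≤ 1 / 1000000 := by
    have h4 : (1 : ℝ) ≤ ((m : ℝ) ^ 2) ^ 4 := one_le_pow₀ hM
    have h5 := mul_le_mul_of_nonneg_left h4 (sq_nonneg ((m : ℝ) / s))
    linarith
  have hx1 : (m : ℝ) / s ≤ 1 / 2 := by
    by_contra hcon
    push Not at hcon
    have := mul_lt_mul'' hcon hcon (by norm_num) (by norm_num)
    rw [sq] at hy1
    norm_num at this
    linarith
  obtain ⟨hb1, hb2⟩ := second_bounds hE hn' hx0 hx1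
  have hNs : ((3 * s ^ 2 - m ^ 2 : ℤ) : ℝ) * (((3 * s ^ 2 - m ^ 2 : ℤ) : ℝ) * exp 1 -
      ((6 * n * m * s : ℤ) : ℝ)) =
      (s ^ 4 * (3 - (m / s) ^ 2)) * ((3 - (m / s) ^ 2) * exp 1 - 6 * n * (m / s)) := by
    push_cast
    field_simp
  have hx4 : ((m : ℝ) / s) ^ 4 * s ^ 4 = m ^ 4 := by
    field_simp
  have h3y : 0 < 3 - ((m : ℝ) / s) ^ 2 := by linarith
  have h1y : 0 < 1 - ((m : ℝ) / s) ^ 2 := by linarith
  have hs3 : 0 < (s : ℝ) ^ 4 * (3 - (m / s) ^ 2) := by positivity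
  have hlow : exp 1 * ((m : ℝ) ^ 2) ^ 2 * ((3 - ((m : ℝ) / s) ^ 2) *
      ((1 - ((m : ℝ) / s) ^ 2) * (4 / 15 - ((m : ℝ) / s) ^ 2 / 5))) ≤
      ((3 * s ^ 2 - m ^ 2 : ℤ) : ℝ) * (((3 * s ^ 2 - m ^ 2 : ℤ) : ℝ) * exp 1 -
      ((6 * n * m * s : ℤ) : ℝ)) := by
    rw [hNs]
    have := mul_le_mul_of_nonneg_left hb1 hs3.le
    refine le_trans (le_of_eq ?_) this
    linear_combination (-(exp 1 * ((3 - ((m : ℝ) / s) ^ 2) *
      ((1 - ((m : ℝ) / s) ^ 2) * (4 / 15 - ((m : ℝ) / s) ^ 2 / 5))))) * hx4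
  have hup : ((3 * s ^ 2 - m ^ 2 : ℤ) : ℝ) * (((3 * s ^ 2 - m ^ 2 : ℤ) : ℝ) * exp 1 -
      ((6 * n * m * s : ℤ) : ℝ)) ≤ exp 1 * ((m : ℝ) ^ 2) ^ 2 * ((3 - ((m : ℝ) / s) ^ 2) *
      ((4 + 2 * ((m : ℝ) / s) ^ 2) / (15 * (1 - ((m : ℝ) / s) ^ 2)))) := by
    rw [hNs]
    have := mul_le_mul_of_nonneg_left hb2 hs3.le
    refine le_trans this (le_of_eq ?_)
    linear_combination (exp 1 * ((3 - ((m : ℝ) / s) ^ 2) *
      ((4 + 2 * ((m : ℝ) / s) ^ 2) / (15 * (1 - ((m : ℝ) / s) ^ 2))))) * hx4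
  have hlow0 : 0 < exp 1 * ((m : ℝ) ^ 2) ^ 2 * ((3 - ((m : ℝ) / s) ^ 2) *
      ((1 - ((m : ℝ) / s) ^ 2) * (4 / 15 - ((m : ℝ) / s) ^ 2 / 5))) := by
    have h2 : 0 < 4 / 15 - ((m : ℝ) / s) ^ 2 / 5 := by linarith
    have h3 := Real.exp_pos 1
    positivity
  have hq1 : (1 : ℤ) ≤ 3 * s ^ 2 - m ^ 2 := by
    have h1 : (1 : ℤ) ≤ m := by exact_mod_cast hm
    have h2 : (m : ℤ) < s := by exact_mod_cast hms
    nlinarith
  have hη : 0 < ((3 * s ^ 2 - m ^ 2 : ℤ) : ℝ) * exp 1 - ((6 * n * m * s : ℤ) : ℝ) := by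
    by_contra hcon
    push Not at hcon
    have hs00 : (0 : ℝ) ≤ ((3 * s ^ 2 - m ^ 2 : ℤ) : ℝ) := by
      have : (0 : ℤ) ≤ 3 * s ^ 2 - m ^ 2 := by linarith
      exact_mod_cast this
    have := mul_nonpos_of_nonneg_of_nonpos hs00 hcon
    linarith
  have hodd : Odd ((3 * s ^ 2 - m ^ 2 : ℤ) + 6 * n * m * s) := by
    obtain ⟨c, hc⟩ := hs
    obtain ⟨d, hd⟩ := hmo
    refine ⟨6 * c ^ 2 - 2 * d ^ 2 - 2 * d - 1 + 6 * n * m * c, ?_⟩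
    rw [hc, hd]
    push_cast
    ring
  obtain ⟨k, A, B, A', B', u, v, h⟩ := exists_lat (3 * s ^ 2 - m ^ 2) (6 * n * m * s) hq1 hodd hη
  have hkK : 40000 * m ^ 12 ≤ k := by
    apply index_large (q := 3 * s ^ 2 - m ^ 2)
    · have := h.B_lt
      rw [h.hB1] at this
      exact this
    · have h1 : (s : ℤ) ≤ 3 * s ^ 2 - m ^ 2 := by
        have h1 : (1 : ℤ) ≤ m := by exact_mod_cast hm
        have h2 : (m : ℤ) < s := by exact_mod_cast hms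
        nlinarith
      refine le_trans ?_ h1
      exact_mod_cast hK
  have hm12 : 1 ≤ m ^ 12 := Nat.one_le_pow _ _ hm
  obtain ⟨o, ho, ho2⟩ := close_odd h (by omega)
  have hd := dist_mixed (8 * ((m : ℤ) ^ 2) ^ 2) (5 * o) (by
    have : (1 : ℤ) ≤ ((m : ℤ) ^ 2) ^ 2 := by
      have := Nat.one_le_pow 2 (m ^ 2) (Nat.one_le_pow 2 m hm)
      exact_mod_cast this
    linarith) (by
    obtain ⟨c, hc⟩ := ho
    refine ⟨4 * (m ^ 2) ^ 2 + 5 * c + 2, ?_⟩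
    rw [hc]
    ring)
  refine large_even_real (E := exp 1) (M := (m : ℝ) ^ 2) (y := ((m : ℝ) / s) ^ 2) (k := k)
    (N := ((3 * s ^ 2 - m ^ 2 : ℤ) : ℝ) * (((3 * s ^ 2 - m ^ 2 : ℤ) : ℝ) * exp 1 -
      ((6 * n * m * s : ℤ) : ℝ))) (o := o)
    he2 he1 hM (sq_nonneg _) hxs ?_ hlow hup ho2 ?_
  · have : ((m : ℝ) ^ 2) ^ 6 = m ^ 12 := by ring
    rw [this]
    exact_mod_cast hkK
  · push_cast at hd
    exact hd

theorem large {m s n : ℕ} (hm : 1 ≤ m) (hms : m < s) (hn : 1 ≤ n)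
    (hpar : Odd s ∨ (Even s ∧ Odd m))
    (hK : (4 * (40000 * m ^ 12) + 3) ^ (40000 * m ^ 12) ≤ s) :
    (n : ℝ) * LL (m / s) ≠ exp 1 := by
  intro hE
  rcases hpar with hs | ⟨hs, hmo⟩
  · exact large_odd hm hms hn hs hK hE
  · exact large_even hm hms hn hs hmo hK hE

end Pool.Agent.H13.EE
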