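import Mathlib

/-!
# Real inequalities for the case of large denominators
-/

set_option autoImplicit false

namespace Pool.Agent.H13.EE

/-- bound of the error term of `close_odd` -/
lemma err_aux {N c M k : ℝ} (hM : 1 ≤ M) (hN0 : 0 ≤ N) (hc : 0 ≤ c) (hN : N ≤ c * M ^ 2)
    (hk : 40000 * M ^ 6 ≤ k) : 10 * N ^ 2 / (2 * k + 1) ≤ c ^ 2 / 8000 / M ^ 2 := by
  have hM0 : 0 < M := by linarith
  have hM6 : 0 < M ^ 6 := by positivity
  have hM2 : 0 < M ^ 2 := by positivity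
  have h1 : N ^ 2 ≤ (c * M ^ 2) ^ 2 := pow_le_pow_left₀ hN0 hN 2
  have h2 : 10 * N ^ 2 / (2 * k + 1) ≤ 10 * (c * M ^ 2) ^ 2 / (80000 * M ^ 6) := by
    apply div_le_div₀ (by positivity) (by linarith) (by positivity) (by linarith)
  refine h2.trans (le_of_eq ?_)
  field_simp
  ring

lemma large_odd_real {E M y k N o : ℝ} (hE2 : E < 2.7183)
    (hE1 : 2.7182 < E) (hM : 1 ≤ M) (hy0 : 0 ≤ y) (hy : y * M ^ 4 ≤ 1 / 1000000)
    (hk : 40000 * M ^ 6 ≤ k)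
    (h1 : E * M * (1 - y) / 3 ≤ N) (h2 : N ≤ E * M / (3 * (1 - y)))
    (h3 : |2 * N - o| ≤ 10 * N ^ 2 / (2 * k + 1))
    (h4 : 1 / (8 * (2 * M)) ≤ |2 * M * E - 3 * o|) : False := by
  have hM0 : 0 < M := by linarith
  have hM4 : 1 ≤ M ^ 4 := one_le_pow₀ hM
  have hM2 : 1 ≤ M ^ 2 := one_le_pow₀ hM
  have hMM : M ≤ M ^ 2 := by nlinarith
  have hM3 : M ^ 2 ≤ M ^ 4 := by nlinarith
  have hy1 : y ≤ 1 / 1000000 := by nlinarith
  have hyM : y * M ^ 2 ≤ 1 / 1000000 := by nlinarith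
  have hN0 : 0 ≤ N := by
    refine le_trans ?_ h1
    have : 0 ≤ 1 - y := by linarith
    positivity
  -- N - E M / 3 small
  have h5 : E * M / (3 * (1 - y)) ≤ E * M / 3 * (1 + 2 * y) := by
    rw [div_le_iff₀ (by linarith)]
    have : E * M / 3 * (1 + 2 * y) * (3 * (1 - y)) = E * M * (1 + y * (1 - 2 * y)) := by ring
    rw [this]
    have h6 : 0 ≤ y * (1 - 2 * y) := mul_nonneg hy0 (by linarith)
    have h7 : 0 < E * M := by positivity
    nlinarith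
  have hEM : E * M < 2.7183 * M := by nlinarith
  have hyEM : y * (E * M) ≤ y * (2.7183 * M) := mul_le_mul_of_nonneg_left hEM.le hy0
  have hNup : N ≤ 1 * M ^ 2 := by nlinarith
  have h8 := err_aux hM hN0 (by norm_num) hNup hk
  -- y M ≤ 1e-6 / M
  have h9 : y * M ≤ 1 / 1000000 / M := by
    rw [le_div_iff₀ hM0]; nlinarith
  have h10 : 1 ^ 2 / 8000 / M ^ 2 ≤ 1 / 8000 / M := by
    rw [one_pow]
    apply div_le_div_of_nonneg_left (by norm_num) hM0 hMM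
  have h11 : |2 * M * E - 3 * o| ≤ 3 * |2 * N - o| + |6 * N - 2 * M * E| := by
    have e1 : 2 * M * E - 3 * o = 3 * (2 * N - o) + -(6 * N - 2 * M * E) := by ring
    rw [e1]
    refine (abs_add_le _ _).trans ?_
    rw [abs_mul, abs_neg, abs_of_pos (show (0 : ℝ) < 3 by norm_num)]
  have h12 : |6 * N - 2 * M * E| ≤ 12 * (y * M) := by
    rw [abs_le]
    constructor <;> nlinarith
  have h13 : 1 / (8 * (2 * M)) = 1 / 16 / M := by
    field_simp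
    norm_num
  rw [h13] at h4
  have h14 : (1 : ℝ) / 16 / M = 1 / 16 * (1 / M) := by ring
  have h15 : (1 : ℝ) / 8000 / M = 1 / 8000 * (1 / M) := by ring
  have h16 : (1 : ℝ) / 1000000 / M = 1 / 1000000 * (1 / M) := by ring
  rw [h14] at h4
  rw [h15] at h10
  rw [h16] at h9
  have h17 : 0 < 1 / M := by positivity
  linarith

lemma large_even_real {E M y k N o : ℝ} (hE2 : E < 2.7183)
    (hE1 : 2.7182 < E) (hM : 1 ≤ M) (hy0 : 0 ≤ y) (hy : y * M ^ 4 ≤ 1 / 1000000)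
    (hk : 40000 * M ^ 6 ≤ k)
    (h1 : E * M ^ 2 * ((3 - y) * ((1 - y) * (4 / 15 - y / 5))) ≤ N)
    (h2 : N ≤ E * M ^ 2 * ((3 - y) * ((4 + 2 * y) / (15 * (1 - y)))))
    (h3 : |2 * N - o| ≤ 10 * N ^ 2 / (2 * k + 1))
    (h4 : 1 / (8 * (8 * M ^ 2)) ≤ |8 * M ^ 2 * E - 5 * o|) : False := by
  have hM0 : 0 < M := by linarith
  have hM4 : 1 ≤ M ^ 4 := one_le_pow₀ hM
  have hM2 : 1 ≤ M ^ 2 := one_le_pow₀ hM
  have hM20 : 0 < M ^ 2 := by linarith
  have hy1 : y ≤ 1 / 1000000 := by nlinarith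
  have hEM : E * M ^ 2 < 2.7183 * M ^ 2 := by nlinarith
  have hEM0 : 0 < E * M ^ 2 := by positivity
  have a1 : (3 - y) * ((4 + 2 * y) / (15 * (1 - y))) ≤ 4 / 5 + y := by
    rw [mul_div_assoc', div_le_iff₀ (by linarith)]
    nlinarith
  have a2 : 4 / 5 - 2 * y ≤ (3 - y) * ((1 - y) * (4 / 15 - y / 5)) := by
    nlinarith [mul_nonneg hy0 hy0, mul_nonneg hy0 (mul_nonneg hy0 hy0)]
  have a3 : N ≤ E * M ^ 2 * (4 / 5 + y) := h2.trans (mul_le_mul_of_nonneg_left a1 hEM0.le)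
  have a4 : E * M ^ 2 * (4 / 5 - 2 * y) ≤ N := (mul_le_mul_of_nonneg_left a2 hEM0.le).trans h1
  have hN0 : 0 ≤ N := by
    refine le_trans ?_ a4
    have : 0 ≤ 4 / 5 - 2 * y := by linarith
    positivity
  have hyEM : y * (E * M ^ 2) ≤ y * (2.7183 * M ^ 2) := mul_le_mul_of_nonneg_left hEM.le hy0
  have hyM2 : y * M ^ 2 ≤ 1 / 1000000 * M ^ 2 := mul_le_mul_of_nonneg_right hy1 hM20.le
  have hNup : N ≤ 2.2 * M ^ 2 := by nlinarith
  have h8 := err_aux hM hN0 (by norm_num) hNup hk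
  have h9 : y * M ^ 2 ≤ 1 / 1000000 / M ^ 2 := by
    rw [le_div_iff₀ hM20]; nlinarith
  have h11 : |8 * M ^ 2 * E - 5 * o| ≤ 5 * |2 * N - o| + |10 * N - 8 * M ^ 2 * E| := by
    have e1 : 8 * M ^ 2 * E - 5 * o = 5 * (2 * N - o) + -(10 * N - 8 * M ^ 2 * E) := by ring
    rw [e1]
    refine (abs_add_le _ _).trans ?_
    rw [abs_mul, abs_neg, abs_of_pos (show (0 : ℝ) < 5 by norm_num)]
  have h12 : |10 * N - 8 * M ^ 2 * E| ≤ 60 * (y * M ^ 2) := by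
    rw [abs_le]
    constructor <;> nlinarith
  have h13 : 1 / (8 * (8 * M ^ 2)) = 1 / 64 * (1 / M ^ 2) := by
    field_simp
    norm_num
  have h15 : (2.2 : ℝ) ^ 2 / 8000 / M ^ 2 = 4.84 / 8000 * (1 / M ^ 2) := by ring
  have h16 : (1 : ℝ) / 1000000 / M ^ 2 = 1 / 1000000 * (1 / M ^ 2) := by ring
  rw [h13] at h4
  rw [h15] at h8
  rw [h16] at h9
  have h17 : 0 < 1 / M ^ 2 := by positivity
  linarith

end Pool.Agent.H13.EE
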