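import Pool.Agent.H13.EE.Delta

/-!
# Rational approximations of `e` of mixed parity

All entries of the diagonal Pade approximants `P_k / Q_k` of `e` are odd. So for integers `q, p`
with `q + p` odd the integers `q P_k - p Q_k` are odd for every `k`, and `2 q (q e - p)` is close to
an odd integer.
-/

set_option autoImplicit false

namespace Pool.Agent.H13.EE

/-- denominators of the diagonal Pade approximants of `e` -/
def Qk : ℕ → ℤ
  | 0 => 1
  | 1 => 1
  | (k + 2) => (4 * k + 6) * Qk (k + 1) + Qk k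

/-- numerators of the diagonal Pade approximants of `e` -/
def Pk : ℕ → ℤ
  | 0 => 1
  | 1 => 3
  | (k + 2) => (4 * k + 6) * Pk (k + 1) + Pk k

lemma Qk_rec (k : ℕ) : Qk (k + 2) = (4 * k + 6) * Qk (k + 1) + Qk k := rfl

lemma Pk_rec (k : ℕ) : Pk (k + 2) = (4 * k + 6) * Pk (k + 1) + Pk k := rfl

lemma Qk_odd (k : ℕ) : Odd (Qk k) := by
  induction k using Nat.twoStepInduction with
  | zero => exact odd_one
  | one => exact odd_one
  | more k h1 _ =>
    rw [Qk_rec]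
    exact Even.add_odd ⟨(2 * k + 3) * Qk (k + 1), by ring⟩ h1

lemma Pk_odd (k : ℕ) : Odd (Pk k) := by
  induction k using Nat.twoStepInduction with
  | zero => exact odd_one
  | one => exact ⟨1, rfl⟩
  | more k h1 _ =>
    rw [Pk_rec]
    exact Even.add_odd ⟨(2 * k + 3) * Pk (k + 1), by ring⟩ h1

lemma Qk_pos (k : ℕ) : 0 < Qk k := by
  induction k using Nat.twoStepInduction with
  | zero => exact one_pos
  | one => exact one_pos
  | more k h1 h2 =>
    rw [Qk_rec]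
    positivity

lemma Qk_mono (k : ℕ) : Qk k ≤ Qk (k + 1) := by
  rcases k with _ | k
  · exact le_rfl
  · rw [Qk_rec]
    have h1 := Qk_pos k
    have h2 := Qk_pos (k + 1)
    nlinarith [mul_nonneg (Int.natCast_nonneg k) h2.le]

lemma Qk_le (k : ℕ) : Qk (k + 2) ≤ (4 * k + 7) * Qk (k + 1) := by
  rw [Qk_rec]
  have := Qk_mono k
  linarith

lemma Qk_le_pow (K k : ℕ) (h : k + 1 ≤ K) : Qk (k + 2) ≤ (4 * K + 3) ^ (k + 1) := by
  induction k with
  | zero =>
    have h2 : Qk (0 + 2) = 7 := rfl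
    rw [h2]
    have : (1 : ℤ) ≤ K := by exact_mod_cast h
    rw [zero_add, pow_one]
    linarith
  | succ k ih =>
    have h1 := Qk_le (k + 1)
    have h2 := ih (by omega)
    have h3 : ((k : ℤ) + 1 + 1) ≤ K := by exact_mod_cast h
    have h4 := Qk_pos (k + 2)
    calc Qk (k + 1 + 2) ≤ (4 * ((k + 1 : ℕ) : ℤ) + 7) * Qk (k + 1 + 1) := h1
      _ ≤ (4 * K + 3) * (4 * K + 3) ^ (k + 1) := by
          apply mul_le_mul _ h2 h4.le (by positivity)
          push_cast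
          linarith
      _ = (4 * K + 3) ^ (k + 1 + 1) := by ring

lemma eps (k : ℕ) : (Qk k : ℝ) * Real.exp 1 - Pk k = (-1) ^ k * del k := by
  induction k using Nat.twoStepInduction with
  | zero =>
    rw [del_zero]
    simp [Qk, Pk]
  | one =>
    rw [del_one]
    simp [Qk, Pk]
  | more k h1 h2 =>
    rw [Qk_rec, Pk_rec]
    push_cast
    have h3 := del_rec k
    have h4 : del (k + 2) = del k - (4 * k + 6) * del (k + 1) := by linarith
    rw [h4]
    have h5 : (-1 : ℝ) ^ (k + 1) = -(-1) ^ k := by ring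
    have h6 : (-1 : ℝ) ^ (k + 2) = (-1) ^ k := by ring
    rw [h5] at h2
    rw [h6]
    linear_combination h1 + (4 * (k : ℝ) + 6) * h2

lemma qdel (k : ℕ) : (Qk (k + 1) : ℝ) * del k + Qk k * del (k + 1) = 2 := by
  induction k with
  | zero =>
    rw [del_zero, show (0 : ℕ) + 1 = 1 from rfl, del_one]
    simp [Qk]
    ring
  | succ k ih =>
    rw [show k + 1 + 1 = k + 2 from rfl, Qk_rec]
    push_cast
    have h3 := del_rec k
    have h4 : del (k + 2) = del k - (4 * k + 6) * del (k + 1) := by linarith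
    rw [h4]
    linear_combination ih

lemma del_succ_le (k : ℕ) : (4 * k + 6) * del (k + 1) ≤ del k := by
  have h := del_rec k
  have h2 := del_pos (k + 2)
  linarith

lemma del_small (k : ℕ) : del k ≤ 2 * (1 / 2) ^ k := by
  induction k with
  | zero =>
    rw [del_zero]
    have := Real.exp_one_lt_three
    linarith
  | succ k ih =>
    have h1 := del_succ_le k
    have h2 := del_pos (k + 1)
    have h3 : 6 * del (k + 1) ≤ del k := by
      have : (0 : ℝ) ≤ 4 * k * del (k + 1) := by positivity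
      linarith
    rw [pow_succ]
    have h4 : (0 : ℝ) < (1 / 2) ^ k := by positivity
    linarith

/-- the configuration of a lattice vector `(q, p)` with respect to the approximants of index `k`
and `k + 1` -/
structure Lat (q p : ℤ) (k : ℕ) (A B A' B' : ℝ) (u v : ℤ) : Prop where
  A_pos : 0 < A
  B_pos : 0 < B
  A'_pos : 0 < A'
  B'_pos : 0 < B'
  B_lt : B < 1 / 2
  le_B' : 1 / 2 ≤ B'
  hB : (4 * (k : ℝ) + 6) * B ≤ B'
  hA : A' ≤ A
  hA2 : 1 ≤ k → (4 * (k : ℝ) + 2) * A' ≤ A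
  hN : A * B' + A' * B = 2 * (q * (q * Real.exp 1 - p))
  hu : u = q * Pk (k + 1) - p * Qk (k + 1)
  hv : v = q * Pk k - p * Qk k
  hu' : (u : ℝ) = A + (-1) ^ k * B
  hv' : (v : ℝ) = A' - (-1) ^ k * B'
  hB1 : B = q * del (k + 1)
  hB2 : B' = q * del k
  u_odd : Odd u
  v_odd : Odd v

lemma h_odd (q p : ℤ) (h : Odd (q + p)) (k : ℕ) : Odd (q * Pk k - p * Qk k) := by
  obtain ⟨a, ha⟩ := Qk_odd k
  obtain ⟨b, hb⟩ := Pk_odd k
  obtain ⟨c, hc⟩ := h
  refine ⟨q * b - p * a - p + c, ?_⟩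
  rw [ha, hb]
  linear_combination hc

lemma exists_index (q : ℤ) (hq : 1 ≤ q) :
    ∃ k : ℕ, (q : ℝ) * del (k + 1) < 1 / 2 ∧ 1 / 2 ≤ (q : ℝ) * del k := by
  classical
  have hq' : (1 : ℝ) ≤ q := by exact_mod_cast hq
  have hex : ∃ k : ℕ, (q : ℝ) * del k < 1 / 2 := by
    obtain ⟨k, hk⟩ := exists_pow_lt_of_lt_one (show (0 : ℝ) < 1 / (4 * q) by positivity)
      (show (1 / 2 : ℝ) < 1 by norm_num)
    refine ⟨k, ?_⟩
    have h1 := del_small k
    have h2 : (q : ℝ) * (2 * (1 / 2) ^ k) < q * (2 * (1 / (4 * q))) := by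
      apply mul_lt_mul_of_pos_left _ (by linarith)
      linarith
    have h3 : (q : ℝ) * (2 * (1 / (4 * q))) = 1 / 2 := by
      field_simp
      norm_num
    have h4 : (q : ℝ) * del k ≤ q * (2 * (1 / 2) ^ k) :=
      mul_le_mul_of_nonneg_left h1 (by linarith)
    linarith
  have h0 : ¬ (q : ℝ) * del 0 < 1 / 2 := by
    rw [del_zero]
    have := Real.exp_one_gt_d9
    nlinarith
  have hpos : Nat.find hex ≠ 0 := by
    intro h
    have := Nat.find_spec hex
    rw [h] at this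
    exact h0 this
  obtain ⟨k, hk⟩ := Nat.exists_eq_succ_of_ne_zero hpos
  refine ⟨k, ?_, ?_⟩
  · have := Nat.find_spec hex
    rw [hk] at this
    exact this
  · have := Nat.find_min hex (m := k) (by rw [hk]; exact Nat.lt_succ_self k)
    linarith

theorem exists_lat (q p : ℤ) (hq : 1 ≤ q) (hodd : Odd (q + p))
    (hη : 0 < (q : ℝ) * Real.exp 1 - p) :
    ∃ (k : ℕ) (A B A' B' : ℝ) (u v : ℤ), Lat q p k A B A' B' u v := by
  obtain ⟨k, hk1, hk2⟩ := exists_index q hq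
  have hq' : (1 : ℝ) ≤ q := by exact_mod_cast hq
  have hQ1 : (0 : ℝ) < Qk (k + 1) := by exact_mod_cast Qk_pos (k + 1)
  have hQ0 : (0 : ℝ) < Qk k := by exact_mod_cast Qk_pos k
  have hd1 := del_pos (k + 1)
  have hd0 := del_pos k
  refine ⟨k, Qk (k + 1) * (q * Real.exp 1 - p), q * del (k + 1), Qk k * (q * Real.exp 1 - p),
    q * del k, q * Pk (k + 1) - p * Qk (k + 1), q * Pk k - p * Qk k, ?_⟩
  refine ⟨by positivity, by positivity, by positivity, by positivity, hk1, hk2, ?_, ?_, ?_, ?_,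
    rfl, rfl, ?_, ?_, rfl, rfl, h_odd q p hodd _, h_odd q p hodd _⟩
  · have := del_succ_le k
    nlinarith
  · have : (Qk k : ℝ) ≤ Qk (k + 1) := by exact_mod_cast Qk_mono k
    nlinarith
  · intro hk
    obtain ⟨j, rfl⟩ : ∃ j, k = j + 1 := ⟨k - 1, by omega⟩
    have h1 : (Qk (j + 1 + 1) : ℝ) = (4 * j + 6) * Qk (j + 1) + Qk j := by
      rw [show j + 1 + 1 = j + 2 from rfl, Qk_rec]
      push_cast
      ring
    have h2 : (0 : ℝ) < Qk j := by exact_mod_cast Qk_pos j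
    rw [h1]
    push_cast
    nlinarith [mul_pos h2 hη]
  · have := qdel k
    linear_combination (q * (q * Real.exp 1 - p)) * this
  · have := eps (k + 1)
    push_cast
    rw [show (-1 : ℝ) ^ (k + 1) = -(-1) ^ k by ring] at this
    linear_combination (-(q : ℝ)) * this
  · have := eps k
    push_cast
    linear_combination (-(q : ℝ)) * this

namespace Lat

variable {q p : ℤ} {k : ℕ} {A B A' B' : ℝ} {u v : ℤ}

lemma u_pos (h : Lat q p k A B A' B' u v) : 1 ≤ u := by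
  have h1 : (-1 : ℝ) < u := by
    rw [h.hu']
    have hA := h.A_pos
    have hB := h.B_pos
    have hB2 := h.B_lt
    rcases neg_one_pow_eq_or ℝ k with hk | hk <;> rw [hk] <;> linarith
  have h2 : (-1 : ℤ) < u := by exact_mod_cast h1
  obtain ⟨a, ha⟩ := h.u_odd
  omega

lemma half_le_A (h : Lat q p k A B A' B' u v) : 1 / 2 ≤ A := by
  have h1 : (1 : ℝ) ≤ u := by exact_mod_cast h.u_pos
  rw [h.hu'] at h1
  have hB := h.B_pos
  have hB2 := h.B_lt
  rcases neg_one_pow_eq_or ℝ k with hk | hk <;> rw [hk] at h1 <;> linarith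

end Lat

/-- twice `q (q e - p)` is close to an odd integer -/
theorem close_odd {q p : ℤ} {k : ℕ} {A B A' B' : ℝ} {u v : ℤ} (h : Lat q p k A B A' B' u v)
    (hk : 1 ≤ k) : ∃ o : ℤ, Odd o ∧
      |2 * (q * (q * Real.exp 1 - p)) - o| ≤
        10 * (q * (q * Real.exp 1 - p)) ^ 2 / (2 * k + 1) := by
  set N : ℝ := q * (q * Real.exp 1 - p) with hN
  have hA := h.A_pos
  have hB := h.B_pos
  have hA' := h.A'_pos
  have hB' := h.B'_pos
  have hA2 := h.half_le_A
  have hB'2 := h.le_B'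
  have h1 := h.hN
  have hA3 := h.hA2 hk
  have hB3 := h.hB
  have hk' : (1 : ℝ) ≤ k := by exact_mod_cast hk
  have hAB : A * B' ≤ 2 * N := by nlinarith [mul_pos hA' hB]
  have hAN : A ≤ 4 * N := by nlinarith
  have hBN : B' ≤ 4 * N := by nlinarith
  have hN8 : 1 / 8 ≤ N := by nlinarith
  have c1 : A' ≤ A / (4 * k + 2) := by
    rw [le_div_iff₀ (by positivity)]
    linarith
  have c2 : B ≤ B' / (4 * k + 6) := by
    rw [le_div_iff₀ (by positivity)]
    linarith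
  have d1 : A * A' ≤ 16 * N ^ 2 / (4 * k + 2) := by
    rw [le_div_iff₀ (by positivity)]
    have : A * A' * (4 * k + 2) ≤ A * A := by nlinarith
    nlinarith
  have d2 : B * B' ≤ 16 * N ^ 2 / (4 * k + 2) := by
    rw [le_div_iff₀ (by positivity)]
    have : B * B' * (4 * k + 2) ≤ B' * B' := by nlinarith [mul_pos hB hB']
    nlinarith
  have d3 : 2 * (A' * B) ≤ 32 * N ^ 2 / (10 * (4 * k + 2)) := by
    rw [le_div_iff₀ (by positivity)]
    have e1 : A' * B * (4 * k + 2) ≤ A * B := by nlinarith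
    have e2 : A * B * 10 ≤ A * B' := by nlinarith [mul_pos hA hB]
    nlinarith
  refine ⟨-(-1) ^ k * (u * v), ?_, ?_⟩
  · have h2 : Odd ((-1 : ℤ) ^ k) := (show Odd (-1 : ℤ) from ⟨-1, rfl⟩).pow
    exact (h2.neg).mul (h.u_odd.mul h.v_odd)
  · push_cast
    rw [h.hu', h.hv']
    have hsq : ((-1 : ℝ) ^ k) * (-1) ^ k = 1 := by
      rw [← mul_pow]; norm_num
    have h3 : 2 * N - -(-1) ^ k * ((A + (-1) ^ k * B) * (A' - (-1) ^ k * B')) =
        2 * (A' * B) + (-1) ^ k * (A * A' - B * B') := by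
      rw [← h1]
      linear_combination (-(A * B') + A' * B - (-1) ^ k * (B * B')) * hsq
    rw [h3]
    have d4 : 16 * N ^ 2 / (4 * k + 2) + 32 * N ^ 2 / (10 * (4 * k + 2)) ≤
        10 * N ^ 2 / (2 * k + 1) := by
      rw [div_add_div _ _ (by positivity) (by positivity), div_le_div_iff₀ (by positivity)
        (by positivity)]
      have hk0 : (0 : ℝ) ≤ k := by positivity
      have hN2 : 0 ≤ N ^ 2 := sq_nonneg N
      nlinarith [mul_nonneg hN2 hk0, mul_nonneg hN2 (mul_nonneg hk0 hk0)]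
    have p1 : 0 < A * A' := mul_pos hA hA'
    have p2 : 0 < B * B' := mul_pos hB hB'
    have p3 : 0 < A' * B := mul_pos hA' hB
    rcases neg_one_pow_eq_or ℝ k with hk2 | hk2 <;> rw [hk2, abs_le] <;> constructor <;> linarith

/-- distance of `e` to rational numbers of mixed parity -/
theorem dist_mixed (q p : ℤ) (hq : 1 ≤ q) (hodd : Odd (q + p)) :
    1 / (8 * (q : ℝ)) ≤ |(q : ℝ) * Real.exp 1 - p| := by
  obtain ⟨k, hk1, hk2⟩ := exists_index q hq
  have hq' : (1 : ℝ) ≤ q := by exact_mod_cast hq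
  have hQ1 : (0 : ℝ) < Qk (k + 1) := by exact_mod_cast Qk_pos (k + 1)
  have hQ0 : (0 : ℝ) < Qk k := by exact_mod_cast Qk_pos k
  have hd1 := del_pos (k + 1)
  have hd0 := del_pos k
  have h1 : (1 : ℝ) ≤ |((q * Pk (k + 1) - p * Qk (k + 1) : ℤ) : ℝ)| := by
    have h2 : (1 : ℤ) ≤ |q * Pk (k + 1) - p * Qk (k + 1)| := by
      apply Int.one_le_abs
      intro h0
      have := h_odd q p hodd (k + 1)
      rw [h0] at this
      exact absurd this (by decide)
    exact_mod_cast h2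
  have h3 : ((q * Pk (k + 1) - p * Qk (k + 1) : ℤ) : ℝ) =
      Qk (k + 1) * (q * Real.exp 1 - p) + (-1) ^ k * (q * del (k + 1)) := by
    have := eps (k + 1)
    push_cast
    rw [show (-1 : ℝ) ^ (k + 1) = -(-1) ^ k by ring] at this
    linear_combination (-(q : ℝ)) * this
  rw [h3] at h1
  have h4 : |Qk (k + 1) * (q * Real.exp 1 - p) + (-1) ^ k * (q * del (k + 1))| ≤
      Qk (k + 1) * |(q : ℝ) * Real.exp 1 - p| + q * del (k + 1) := by
    refine (abs_add_le _ _).trans ?_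
    rw [abs_mul, abs_mul, abs_pow, abs_neg, abs_one, one_pow, one_mul, abs_of_pos hQ1,
      abs_of_pos (show (0 : ℝ) < q * del (k + 1) by positivity)]
  have h5 : 1 / 2 ≤ Qk (k + 1) * |(q : ℝ) * Real.exp 1 - p| := by linarith
  have h6 := qdel k
  have h7 : (Qk (k + 1) : ℝ) * del k ≤ 2 := by
    have : (0 : ℝ) < Qk k * del (k + 1) := by positivity
    linarith
  have h8 : (Qk (k + 1) : ℝ) ≤ 4 * q := by
    by_contra hcon
    push Not at hcon
    have : 4 * q * del k < Qk (k + 1) * del k := mul_lt_mul_of_pos_right hcon hd0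
    nlinarith
  rw [div_le_iff₀ (by positivity)]
  have h9 : 0 ≤ |(q : ℝ) * Real.exp 1 - p| := abs_nonneg _
  nlinarith

/-- the index is large for large denominators -/
theorem index_large {q : ℤ} {k K : ℕ} (hk : (q : ℝ) * del (k + 1) < 1 / 2)
    (hK : ((4 * K + 3) ^ K : ℤ) ≤ q) : K ≤ k := by
  by_contra hcon
  push Not at hcon
  have h1 := Qk_le_pow K k (by omega)
  have h2 : ((4 * K + 3) ^ (k + 1) : ℤ) ≤ (4 * K + 3) ^ K :=
    pow_le_pow_right₀ (by omega) (by omega)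
  have h3 : (Qk (k + 2) : ℝ) ≤ q := by exact_mod_cast (h1.trans h2).trans hK
  have h4 := qdel (k + 1)
  have h5 := del_succ_le (k + 1)
  have h6 := Qk_mono (k + 1)
  have h6' : (Qk (k + 1) : ℝ) ≤ Qk (k + 2) := by exact_mod_cast h6
  have h7 := del_pos (k + 1)
  have h8 := del_pos (k + 2)
  have h9 : (0 : ℝ) < Qk (k + 1) := by exact_mod_cast Qk_pos (k + 1)
  have h10 : del (k + 2) ≤ del (k + 1) := by
    have : (0 : ℝ) ≤ 4 * ((k + 1 : ℕ) : ℝ) * del (k + 1 + 1) := by positivity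
    have h11 : del (k + 1 + 1) = del (k + 2) := rfl
    rw [h11] at this h5
    nlinarith
  have h12 : (Qk (k + 1) : ℝ) * del (k + 2) ≤ Qk (k + 2) * del (k + 1) := by
    apply mul_le_mul h6' h10 h8.le (by linarith)
  have h13 : (1 : ℝ) ≤ Qk (k + 2) * del (k + 1) := by
    have h14 : (Qk (k + 1 + 1) : ℝ) * del (k + 1) + Qk (k + 1) * del (k + 1 + 1) = 2 := h4
    have h15 : (Qk (k + 2) : ℝ) * del (k + 1) + Qk (k + 1) * del (k + 2) = 2 := h14
    linarith
  nlinarith [mul_le_mul_of_nonneg_right h3 h7.le]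

/-- the approximants modulo 8 -/
lemma mod_eight (j : ℕ) :
    Qk (4 * j) % 8 = 1 ∧ Pk (4 * j) % 8 = 1 ∧ Qk (4 * j + 1) % 8 = 1 ∧ Pk (4 * j + 1) % 8 = 3 ∧
    Qk (4 * j + 2) % 8 = 7 ∧ Pk (4 * j + 2) % 8 = 3 ∧
    Qk (4 * j + 3) % 8 = 7 ∧ Pk (4 * j + 3) % 8 = 1 := by
  induction j with
  | zero => decide
  | succ j ih =>
    obtain ⟨-, -, -, -, h5, h6, h7, h8⟩ := ih
    have e4 : Qk (4 * (j + 1)) = (4 * ((4 * j + 2 : ℕ) : ℤ) + 6) * Qk (4 * j + 3) +
      Qk (4 * j + 2) := Qk_rec (4 * j + 2)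
    have f4 : Pk (4 * (j + 1)) = (4 * ((4 * j + 2 : ℕ) : ℤ) + 6) * Pk (4 * j + 3) +
      Pk (4 * j + 2) := Pk_rec (4 * j + 2)
    have e5 : Qk (4 * (j + 1) + 1) = (4 * ((4 * j + 3 : ℕ) : ℤ) + 6) * Qk (4 * (j + 1)) +
      Qk (4 * j + 3) := Qk_rec (4 * j + 3)
    have f5 : Pk (4 * (j + 1) + 1) = (4 * ((4 * j + 3 : ℕ) : ℤ) + 6) * Pk (4 * (j + 1)) +
      Pk (4 * j + 3) := Pk_rec (4 * j + 3)
    have e6 : Qk (4 * (j + 1) + 2) = (4 * ((4 * (j + 1) : ℕ) : ℤ) + 6) * Qk (4 * (j + 1) + 1) +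
      Qk (4 * (j + 1)) := Qk_rec (4 * (j + 1))
    have f6 : Pk (4 * (j + 1) + 2) = (4 * ((4 * (j + 1) : ℕ) : ℤ) + 6) * Pk (4 * (j + 1) + 1) +
      Pk (4 * (j + 1)) := Pk_rec (4 * (j + 1))
    have e7 : Qk (4 * (j + 1) + 3) = (4 * ((4 * (j + 1) + 1 : ℕ) : ℤ) + 6) *
      Qk (4 * (j + 1) + 2) + Qk (4 * (j + 1) + 1) := Qk_rec (4 * (j + 1) + 1)
    have f7 : Pk (4 * (j + 1) + 3) = (4 * ((4 * (j + 1) + 1 : ℕ) : ℤ) + 6) *
      Pk (4 * (j + 1) + 2) + Pk (4 * (j + 1) + 1) := Pk_rec (4 * (j + 1) + 1)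
    have key : ∀ (c a b r s : ℤ) (t : ℤ), a % 8 = r → b % 8 = s → c % 8 = t →
        (c * a + b) % 8 = (t * r + s) % 8 := by
      intro c a b r s t ha hb hc
      subst ha hb hc
      rw [Int.add_emod, Int.mul_emod, ← Int.add_emod]
      simp [Int.add_emod, Int.mul_emod]
    have c2 : (4 * ((4 * j + 2 : ℕ) : ℤ) + 6) % 8 = 6 := by push_cast; omega
    have c3 : (4 * ((4 * j + 3 : ℕ) : ℤ) + 6) % 8 = 2 := by push_cast; omega
    have c4 : (4 * ((4 * (j + 1) : ℕ) : ℤ) + 6) % 8 = 6 := by push_cast; omega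
    have c5 : (4 * ((4 * (j + 1) + 1 : ℕ) : ℤ) + 6) % 8 = 2 := by push_cast; omega
    have g4 : Qk (4 * (j + 1)) % 8 = 1 := by rw [e4, key _ _ _ _ _ _ h7 h5 c2]; norm_num
    have k4 : Pk (4 * (j + 1)) % 8 = 1 := by rw [f4, key _ _ _ _ _ _ h8 h6 c2]; norm_num
    have g5 : Qk (4 * (j + 1) + 1) % 8 = 1 := by rw [e5, key _ _ _ _ _ _ g4 h7 c3]; norm_num
    have k5 : Pk (4 * (j + 1) + 1) % 8 = 3 := by rw [f5, key _ _ _ _ _ _ k4 h8 c3]; norm_num
    have g6 : Qk (4 * (j + 1) + 2) % 8 = 7 := by rw [e6, key _ _ _ _ _ _ g5 g4 c4]; norm_num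
    have k6 : Pk (4 * (j + 1) + 2) % 8 = 3 := by rw [f6, key _ _ _ _ _ _ k5 k4 c4]; norm_num
    have g7 : Qk (4 * (j + 1) + 3) % 8 = 7 := by rw [e7, key _ _ _ _ _ _ g6 g5 c5]; norm_num
    have k7 : Pk (4 * (j + 1) + 3) % 8 = 1 := by rw [f7, key _ _ _ _ _ _ k6 k5 c5]; norm_num
    exact ⟨g4, k4, g5, k5, g6, k6, g7, k7⟩

end Pool.Agent.H13.EE
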