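import Pool.Agent.H13.EE.Final

/-!
# `b exp (e / n)` is not an integer for `b ≤ n max (1, (log n) ^ (1 / 13) / 8)`
-/

set_option autoImplicit false

namespace Pool.Agent.H13.EE

open Real

lemma not_one {m s n : ℕ} (hm : m = 1) (hms : m < s) (hn : 1 ≤ n)
    (hE : (n : ℝ) * LL (m / s) = exp 1) : False := by
  subst hm
  refine m_one (s := s) (n := n) (by omega) hn ?_
  rw [← hE]
  push_cast
  rfl

/-- the basic inequality `m0 (2 n - e) ≤ 2 e b'` -/
lemma m0_ineq {m s m0 b' n : ℕ} (hm : 1 ≤ m) (hmm0 : m ≤ m0) (hms : m < s) (hn : 1 ≤ n)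
    (hprod : m0 * s = m * (2 * b' + m0)) (hE : (n : ℝ) * LL (m / s) = exp 1) :
    (m0 : ℝ) * (2 * n - exp 1) ≤ 2 * exp 1 * b' := by
  have hm' : (1 : ℝ) ≤ m := by exact_mod_cast hm
  have hm0' : (m : ℝ) ≤ m0 := by exact_mod_cast hmm0
  have hms' : (m : ℝ) < s := by exact_mod_cast hms
  have hs0 : (0 : ℝ) < s := by linarith
  have hn' : (0 : ℝ) < n := by exact_mod_cast hn
  have hx0 : (0 : ℝ) < m / s := by positivity
  have hx1 : (m : ℝ) / s < 1 := by rw [div_lt_one hs0]; exact hms'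
  have h := n_upper hE hn' hx0 hx1
  have hprod' : (m0 : ℝ) * s = m * (2 * b' + m0) := by exact_mod_cast hprod
  have hb0 : (0 : ℝ) ≤ b' := by positivity
  have hpos : (0 : ℝ) < 2 * b' + m0 := by linarith
  have hx : (m : ℝ) / s = m0 / (2 * b' + m0) := by
    rw [div_eq_div_iff hs0.ne' hpos.ne']
    linarith
  rw [hx] at h
  have h2 : 2 * (m0 / (2 * (b' : ℝ) + m0)) * n = 2 * m0 * n / (2 * b' + m0) := by ring
  rw [h2, div_le_iff₀ hpos] at h
  linarith

/-- the case `b ≤ n` -/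
lemma caseLe {n b : ℕ} {a : ℤ} (hn : 1 ≤ n) (hb : 1 ≤ b) (hbn : b ≤ n)
    (h : (b : ℝ) * exp (exp 1 / n) = a) : False := by
  rcases Nat.lt_or_ge n 15 with h15 | h15
  · exact small_case hn h15 hb hbn h
  · obtain ⟨he1, he2⟩ := exp_one_bounds
    obtain ⟨m, s, m0, b', hm, hms, hpar, hb'b, hmm0, hprod, hE, h2⟩ := red hn hb h
    have hine := m0_ineq hm hmm0 hms hn hprod hE
    have h15' : (15 : ℝ) ≤ n := by exact_mod_cast h15
    have hb'n : (b' : ℝ) ≤ n := by exact_mod_cast hb'b.trans hbn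
    have hm02 : m0 ≤ 2 := by
      by_contra hcon
      have h3 : (3 : ℝ) ≤ m0 := by
        have : 3 ≤ m0 := by omega
        exact_mod_cast this
      have h4 : (3 : ℝ) * (2 * n - exp 1) ≤ m0 * (2 * n - exp 1) :=
        mul_le_mul_of_nonneg_right h3 (by linarith)
      have h5 : 2 * exp 1 * b' ≤ 2 * exp 1 * n :=
        mul_le_mul_of_nonneg_left hb'n (by linarith)
      have h6 : (15 : ℝ) * (6 - 2 * exp 1) ≤ n * (6 - 2 * exp 1) :=
        mul_le_mul_of_nonneg_right h15' (by linarith)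
      linarith
    exact not_one (h2 hm02) hms hn hE

lemma log_num : log (160003 : ℝ) ≤ 12 := by
  rw [Real.log_le_iff_le_exp (by norm_num)]
  have h1 : exp (12 : ℝ) = exp 1 ^ 12 := by
    rw [← Real.exp_nat_mul]
    norm_num
  rw [h1]
  have h2 : (2.7182818283 : ℝ) ^ 12 ≤ exp 1 ^ 12 :=
    pow_le_pow_left₀ (by norm_num) Real.exp_one_gt_d9.le 12
  refine le_trans ?_ h2
  norm_num

/-- the logarithm of the lower bound for `s` -/
lemma log_bound {m : ℕ} (hm : 1 ≤ m) :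
    log ((((4 * (40000 * m ^ 12) + 3) ^ (40000 * m ^ 12) : ℕ)) : ℝ) ≤ 480000 * (m : ℝ) ^ 13 := by
  have hm' : (1 : ℝ) ≤ m := by exact_mod_cast hm
  have hm0 : (0 : ℝ) < m := by linarith
  have hm12 : (1 : ℝ) ≤ (m : ℝ) ^ 12 := one_le_pow₀ hm'
  have h1 : log (4 * (40000 * (m : ℝ) ^ 12) + 3) ≤ 12 * m := by
    have e1 : 4 * (40000 * (m : ℝ) ^ 12) + 3 ≤ 160003 * (m : ℝ) ^ 12 := by linarith
    have e2 := Real.log_le_log (by positivity) e1
    rw [Real.log_mul (by norm_num) (by positivity), Real.log_pow] at e2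
    have e3 := Real.log_le_sub_one_of_pos hm0
    have e4 := log_num
    push_cast at e2
    linarith
  push_cast
  rw [Real.log_pow]
  push_cast
  have h2 : (40000 * (m : ℝ) ^ 12) * log (4 * (40000 * (m : ℝ) ^ 12) + 3) ≤
      (40000 * (m : ℝ) ^ 12) * (12 * m) := mul_le_mul_of_nonneg_left h1 (by positivity)
  refine h2.trans (le_of_eq ?_)
  ring

lemma caseBig {n b : ℕ} {a : ℤ} (hn : 1 ≤ n) (hb : 1 ≤ b)
    (hL : 1 < (log n) ^ (1 / 13 : ℝ) / 8) (hbn : (b : ℝ) ≤ n * ((log n) ^ (1 / 13 : ℝ) / 8))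
    (h : (b : ℝ) * exp (exp 1 / n) = a) : False := by
  obtain ⟨he1, he2⟩ := exp_one_bounds
  obtain ⟨m, s, m0, b', hm, hms, hpar, hb'b, hmm0, hprod, hE, h2⟩ := red hn hb h
  have hine := m0_ineq hm hmm0 hms hn hprod hE
  have hn' : (1 : ℝ) ≤ n := by exact_mod_cast hn
  have hlog0 : 0 ≤ log (n : ℝ) := Real.log_nonneg hn'
  set t : ℝ := (log n) ^ (1 / 13 : ℝ) with ht
  have ht13 : t ^ 13 = log n := by
    rw [ht, ← Real.rpow_natCast, ← Real.rpow_mul hlog0]
    norm_num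
  have ht8 : 8 < t := by linarith
  have htpow : (8 : ℝ) ^ 13 < t ^ 13 := pow_lt_pow_left₀ ht8 (by norm_num) (by norm_num)
  rw [ht13] at htpow
  have hn0 : (0 : ℝ) < n := by linarith
  have hn100 : (100 : ℝ) ≤ n := by
    have := Real.log_le_sub_one_of_pos hn0
    norm_num at htpow
    linarith
  have hb'n : (b' : ℝ) ≤ n * (t / 8) := by
    have : (b' : ℝ) ≤ b := by exact_mod_cast hb'b
    linarith
  have hm' : (1 : ℝ) ≤ m := by exact_mod_cast hm
  have hm0' : (m : ℝ) ≤ m0 := by exact_mod_cast hmm0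
  have hmt : (m : ℝ) ≤ 0.35 * t := by
    have e1 : (m0 : ℝ) * (1.97 * n) ≤ m0 * (2 * n - exp 1) := by
      apply mul_le_mul_of_nonneg_left _ (by linarith)
      linarith
    have e2 : 2 * exp 1 * b' ≤ 5.4366 * (n * (t / 8)) :=
      mul_le_mul (by linarith) hb'n (by positivity) (by norm_num)
    have e3 : (m : ℝ) * (1.97 * n) ≤ m0 * (1.97 * n) :=
      mul_le_mul_of_nonneg_right hm0' (by positivity)
    have e4 : (m : ℝ) * (1.97 * n) ≤ (0.35 * t) * (1.97 * n) := by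
      have e5 : 5.4366 * (n * (t / 8)) ≤ (0.35 * t) * (1.97 * n) := by
        have : 0 < n * t := by positivity
        nlinarith
      linarith
    exact le_of_mul_le_mul_right e4 (by positivity)
  have hm13 : (m : ℝ) ^ 13 ≤ (0.35 * t) ^ 13 := pow_le_pow_left₀ (by linarith) hmt 13
  rw [mul_pow, ht13] at hm13
  have hm1 : (1 : ℝ) ≤ (m : ℝ) ^ 13 := one_le_pow₀ hm'
  have hlogn : 480001 * (m : ℝ) ^ 13 ≤ log n := by
    norm_num at hm13
    linarith
  have hms' : (m : ℝ) < s := by exact_mod_cast hms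
  have hs0 : (0 : ℝ) < s := by linarith
  have hns : (n : ℝ) ≤ exp 1 * s := by
    have hx0 : (0 : ℝ) < m / s := by positivity
    have hx1 : (m : ℝ) / s < 1 := by rw [div_lt_one hs0]; exact hms'
    have e1 := n_upper hE hn0 hx0 hx1
    have e2 : 2 * ((m : ℝ) / s) * n = 2 * m * n / s := by ring
    rw [e2, div_le_iff₀ hs0] at e1
    have e3 : (n : ℝ) ≤ 2 * m * n := by nlinarith
    linarith
  have hlogs : log n ≤ 1 + log s := by
    have e1 := Real.log_le_log hn0 hns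
    rw [Real.log_mul (exp_pos 1).ne' hs0.ne', Real.log_exp] at e1
    exact e1
  refine large hm hms hn hpar ?_ hE
  have hb1 := log_bound hm
  have e1 : log ((((4 * (40000 * m ^ 12) + 3) ^ (40000 * m ^ 12) : ℕ)) : ℝ) ≤ log s := by
    linarith
  have e2 : (0 : ℝ) < (((4 * (40000 * m ^ 12) + 3) ^ (40000 * m ^ 12) : ℕ) : ℝ) := by
    positivity
  have e3 := (Real.log_le_log_iff e2 hs0).mp e1
  exact_mod_cast e3

/-- `b exp (e / n)` is not an integer when `b` is not much larger than `n` -/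
theorem main_thm (n b : ℕ) (hn : 1 ≤ n) (hb : 1 ≤ b)
    (h : (b : ℝ) ≤ n * max 1 ((Real.log n) ^ (1 / 13 : ℝ) / 8)) (a : ℤ) :
    (b : ℝ) * Real.exp (Real.exp 1 / n) ≠ a := by
  intro hEq
  by_cases hL : 1 < (Real.log n) ^ (1 / 13 : ℝ) / 8
  · rw [max_eq_right hL.le] at h
    exact caseBig hn hb hL h hEq
  · push Not at hL
    rw [max_eq_left hL, mul_one] at h
    have h' : b ≤ n := by exact_mod_cast h
    exact caseLe hn hb h' hEq

end Pool.Agent.H13.EE
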