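import Pool.Agent.H30.EE.TargetsG

/-!
# Rigidity (6f)
-/

set_option autoImplicit false

namespace Pool.Agent.H13.EE

open MvPolynomial SC Pool.Agent.H27.LV Pool.Agent.H17.VG Pool.Agent.H30.EE

theorem pf_RIG (hRG1 : T_RG1) (hRG3 : T_RG3) (hRG4 : T_RG4) : T_RIG := by
  intro R K _ _ _ _ n e r F D z hr hS hI hev hz e0 m' h1 h2 h3
  by_cases h4 : r * (r + 1) + m' ≤ r * (e + 1)
  · exact Or.inl h4
  right
  have hF : F.IsHomogeneous (e + 1) := hS.homog
  obtain ⟨a, ha, ha0, has, hda⟩ := hRG1 R K n e r F z hF hz (by omega)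
  have hq := hRG3 R K n e r F D z a hr hS hI hev hz ha0 has hda e0 m' h1 h2 h3
  exact hRG4 K n (e + 1) r F z a hr (by omega) hF hz ha ha0 has hq hda hev

end Pool.Agent.H13.EE
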